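import Pool.Agent.Lib.MP_5ce328_co.Full.Defs

namespace Pool.Agent.MP5ce328
open Finset
variable {V : Type*} {G : SimpleGraph V}

/-- the component of `h0` in the part `O` -/
theorem off_component [DecidableEq V] (O : Finset V) {h0 : V} (h : h0 ∈ O) :
    ∃ H, H ⊆ O ∧ h0 ∈ H ∧ Cn G H ∧ ∀ a ∈ H, ∀ v ∈ O, G.Adj a v → v ∈ H := by
  classical
  -- the least closed part which contains `h0`
  have hne : (O.powerset.filter (fun F => h0 ∈ F ∧ ∀ a ∈ F, ∀ v ∈ O, G.Adj a v → v ∈ F)).Nonempty :=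
    ⟨O, by
      rw [mem_filter, mem_powerset]
      exact ⟨Subset.refl _, h, fun _ _ v hv _ => hv⟩⟩
  obtain ⟨H, hH, hmin⟩ := exists_min_image _ card hne
  rw [mem_filter, mem_powerset] at hH
  obtain ⟨hHO, hh, hcl⟩ := hH
  have hmin' : ∀ F ⊆ O, h0 ∈ F → (∀ a ∈ F, ∀ v ∈ O, G.Adj a v → v ∈ F) → H.card ≤ F.card :=
    fun F h1 h2 h3 => hmin F (by
      rw [mem_filter, mem_powerset]
      exact ⟨h1, h2, h3⟩)
  refine ⟨H, hHO, hh, ?_, hcl⟩
  intro T hT hTn ⟨b, hb, hbT⟩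
  by_contra hcon
  push Not at hcon
  by_cases h0T : h0 ∈ T
  · have h1 := hmin' T (hT.trans hHO) h0T (by
      intro a ha v hv av
      by_contra hvT
      exact hcon a ha v (hcl a (hT ha) v hv av) hvT av)
    have h2 : T.card < H.card := card_lt_card ⟨hT, fun h3 => hbT (h3 hb)⟩
    omega
  · have h1 := hmin' (H \ T) (sdiff_subset.trans hHO) (mem_sdiff.2 ⟨hh, h0T⟩) (by
      intro a ha v hv av
      rw [mem_sdiff] at ha ⊢
      refine ⟨hcl a ha.1 v hv av, fun hvT => ?_⟩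
      exact hcon v hvT a ha.1 ha.2 av.symm)
    obtain ⟨t, ht⟩ := hTn
    have h2 : (H \ T).card < H.card := card_lt_card ⟨sdiff_subset, fun h3 =>
      (mem_sdiff.1 (h3 (hT ht))).2 ht⟩
    omega

end Pool.Agent.MP5ce328
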