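import Pool.Agent.Lib.MP_5ce328_co.Full.MvT

/-!
# MP_5ce328_co: the moves with a detour
-/

namespace Pool.Agent.MP5ce328

variable {V : Type*} {G : SimpleGraph V}

theorem getD_last74 {e : List V} {g d : V} (h : e.getLast? = some g) :
    e.getD (e.length - 1) d = g := by
  rw [List.getLast?_eq_getElem?] at h
  rw [List.getD_eq_getElem?_getD, h]
  rfl

theorem LP.mv_before {m : ℕ} {x : ℕ → V} (C : LP G m x) {K s c p q : ℕ} (h : Gp G m x K (x p) (x q))
    (hs : 1 ≤ s) (hsK : s ≤ K) (hpq : p < q) (hq : q + 1 < m) (hc : c + s ≤ p)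
    (a1 : G.Adj (x (p + 1)) (x c)) (a2 : G.Adj (x (q + 1)) (x (c + s))) : False := by
  obtain ⟨e, g, g', he, h0, h0', a, a'⟩ := h
  have hpos := he.pos
  have := C.cut69 he [(0, c), (p + 1, q), (m + (e.length - 1), m), (p, c + s), (q + 1, m - 1)]
    (by simp; omega) (by simp [Dis]; omega)
    (by simp only [List.isChain_cons_cons, List.isChain_singleton, and_true]
        refine ⟨?_, ?_, ?_, ?_⟩
        · rw [ext_lt (by omega), ext_lt (by omega)]; exact a1.symm
        · rw [ext_lt (by omega), ext_ge, getD_last74 h0']; exact a'.symm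
        · rw [ext_m, ext_lt (by omega), getD_head69 h0]; exact a
        · rw [ext_lt (by omega), ext_lt (by omega)]; exact a2.symm)
    ⟨(m + (e.length - 1), m), by simp, Or.inr ⟨rfl, rfl⟩⟩
  simp [len] at this; omega

theorem LP.mv_between {m : ℕ} {x : ℕ → V} (C : LP G m x) {K s c p q : ℕ}
    (h : Gp G m x K (x p) (x q))
    (hs : 1 ≤ s) (hsK : s ≤ K) (hq : q + 1 < m) (hc : p + 1 ≤ c) (hc' : c + s ≤ q)
    (a1 : G.Adj (x (q + 1)) (x c)) (a2 : G.Adj (x (p + 1)) (x (c + s))) : False := by
  obtain ⟨e, g, g', he, h0, h0', a, a'⟩ := h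
  have hpos := he.pos
  have := C.cut69 he [(0, p), (m, m + (e.length - 1)), (q, c + s), (p + 1, c), (q + 1, m - 1)]
    (by simp; omega) (by simp [Dis]; omega)
    (by simp only [List.isChain_cons_cons, List.isChain_singleton, and_true]
        refine ⟨?_, ?_, ?_, ?_⟩
        · rw [ext_m, ext_lt (by omega), getD_head69 h0]; exact a.symm
        · rw [ext_ge, getD_last74 h0', ext_lt (by omega)]; exact a'
        · rw [ext_lt (by omega), ext_lt (by omega)]; exact a2.symm
        · rw [ext_lt (by omega), ext_lt (by omega)]; exact a1.symm)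
    ⟨(m, m + (e.length - 1)), by simp, Or.inl ⟨rfl, rfl⟩⟩
  simp [len] at this; omega

theorem LP.mv_after {m : ℕ} {x : ℕ → V} (C : LP G m x) {K s c p q : ℕ} (h : Gp G m x K (x p) (x q))
    (hs : 1 ≤ s) (hsK : s ≤ K) (hpq : p < q) (hc : q + 1 ≤ c) (hc' : c + s < m)
    (a1 : G.Adj (x (p + 1)) (x c)) (a2 : G.Adj (x (q + 1)) (x (c + s))) : False := by
  obtain ⟨e, g, g', he, h0, h0', a, a'⟩ := h
  have hpos := he.pos
  have := C.cut69 he [(0, p), (m, m + (e.length - 1)), (q, p + 1), (c, q + 1), (c + s, m - 1)]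
    (by simp; omega) (by simp [Dis]; omega)
    (by simp only [List.isChain_cons_cons, List.isChain_singleton, and_true]
        refine ⟨?_, ?_, ?_, ?_⟩
        · rw [ext_m, ext_lt (by omega), getD_head69 h0]; exact a.symm
        · rw [ext_ge, getD_last74 h0', ext_lt (by omega)]; exact a'
        · rw [ext_lt (by omega), ext_lt (by omega)]; exact a1
        · rw [ext_lt (by omega), ext_lt (by omega)]; exact a2)
    ⟨(m, m + (e.length - 1)), by simp, Or.inl ⟨rfl, rfl⟩⟩
  simp [len] at this; omega

theorem LP.mv_res_right {m : ℕ} {x : ℕ → V} (C : LP G m x) {K s p q : ℕ}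
    (h : Gp G m x K (x p) (x q))
    (hs : 1 ≤ s) (hsK : s ≤ K) (hpq : p < q) (hc : q + s < m)
    (a2 : G.Adj (x (p + 1)) (x (q + s))) : False := by
  obtain ⟨e, g, g', he, h0, h0', a, a'⟩ := h
  have hpos := he.pos
  have := C.cut69 he [(0, p), (m, m + (e.length - 1)), (q, p + 1), (q + s, m - 1)]
    (by simp; omega) (by simp [Dis]; omega)
    (by simp only [List.isChain_cons_cons, List.isChain_singleton, and_true]
        refine ⟨?_, ?_, ?_⟩
        · rw [ext_m, ext_lt (by omega), getD_head69 h0]; exact a.symm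
        · rw [ext_ge, getD_last74 h0', ext_lt (by omega)]; exact a'
        · rw [ext_lt (by omega), ext_lt (by omega)]; exact a2)
    ⟨(m, m + (e.length - 1)), by simp, Or.inl ⟨rfl, rfl⟩⟩
  simp [len] at this; omega

theorem LP.mv_res_left {m : ℕ} {x : ℕ → V} (C : LP G m x) {K s p q : ℕ}
    (h : Gp G m x K (x q) (x p))
    (hs : 1 ≤ s) (hsK : s ≤ K) (hp : p + 1 < m) (hc : q + s ≤ p)
    (a2 : G.Adj (x (p + 1)) (x (q + s))) : False := by
  obtain ⟨e, g, g', he, h0, h0', a, a'⟩ := h
  have hpos := he.pos
  have := C.cut69 he [(0, q), (m, m + (e.length - 1)), (p, q + s), (p + 1, m - 1)]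
    (by simp; omega) (by simp [Dis]; omega)
    (by simp only [List.isChain_cons_cons, List.isChain_singleton, and_true]
        refine ⟨?_, ?_, ?_⟩
        · rw [ext_m, ext_lt (by omega), getD_head69 h0]; exact a.symm
        · rw [ext_ge, getD_last74 h0', ext_lt (by omega)]; exact a'
        · rw [ext_lt (by omega), ext_lt (by omega)]; exact a2.symm)
    ⟨(m, m + (e.length - 1)), by simp, Or.inl ⟨rfl, rfl⟩⟩
  simp [len] at this; omega

theorem LP.mv_last_after {m : ℕ} {x : ℕ → V} (C : LP G m x) {K s c p q : ℕ}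
    (h : Gp G m x K (x p) (x q))
    (hs : 1 ≤ s) (hsK : s ≤ K) (hpq : p < q) (hq : q < m) (hc : p + 1 ≤ c) (hc' : c + s < m)
    (a1 : G.Adj (x (m - 1)) (x c)) (a2 : G.Adj (x (p + 1)) (x (c + s))) : False := by
  have h' := h
  obtain ⟨e, g, g', he, h0, h0', a, a'⟩ := h
  have hpos := he.pos
  rcases Nat.lt_or_ge q c with h1 | h1
  · have := C.cut69 he [(0, p), (m, m + (e.length - 1)), (q, p + 1), (c + s, m - 1), (c, q + 1)]
      (by simp; omega) (by simp [Dis]; omega)
      (by simp only [List.isChain_cons_cons, List.isChain_singleton, and_true]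
          refine ⟨?_, ?_, ?_, ?_⟩
          · rw [ext_m, ext_lt (by omega), getD_head69 h0]; exact a.symm
          · rw [ext_ge, getD_last74 h0', ext_lt (by omega)]; exact a'
          · rw [ext_lt (by omega), ext_lt (by omega)]; exact a2
          · rw [ext_lt (by omega), ext_lt (by omega)]; exact a1)
      ⟨(m, m + (e.length - 1)), by simp, Or.inl ⟨rfl, rfl⟩⟩
    simp [len] at this; omega
  · rcases Nat.lt_or_ge q (c + s) with h2 | h2
    · exact C.mv_res_right (s := c + s - q) h' (by omega) (by omega) hpq (by omega) (by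
        rw [show q + (c + s - q) = c + s by omega]; exact a2)
    · rcases Nat.lt_or_ge (q + 1) m with h3 | h3
      · have := C.cut69 he
          [(0, p), (m, m + (e.length - 1)), (q, c + s), (p + 1, c), (m - 1, q + 1)]
          (by simp; omega) (by simp [Dis]; omega)
          (by simp only [List.isChain_cons_cons, List.isChain_singleton, and_true]
              refine ⟨?_, ?_, ?_, ?_⟩
              · rw [ext_m, ext_lt (by omega), getD_head69 h0]; exact a.symm
              · rw [ext_ge, getD_last74 h0', ext_lt (by omega)]; exact a'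
              · rw [ext_lt (by omega), ext_lt (by omega)]; exact a2.symm
              · rw [ext_lt (by omega), ext_lt (by omega)]; exact a1.symm)
          ⟨(m, m + (e.length - 1)), by simp, Or.inl ⟨rfl, rfl⟩⟩
        simp [len] at this; omega
      · have := C.cut69 he [(0, p), (m, m + (e.length - 1)), (q, c + s), (p + 1, c)]
          (by simp; omega) (by simp [Dis]; omega)
          (by simp only [List.isChain_cons_cons, List.isChain_singleton, and_true]
              refine ⟨?_, ?_, ?_⟩
              · rw [ext_m, ext_lt (by omega), getD_head69 h0]; exact a.symm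
              · rw [ext_ge, getD_last74 h0', ext_lt (by omega)]; exact a'
              · rw [ext_lt (by omega), ext_lt (by omega)]; exact a2.symm)
          ⟨(m, m + (e.length - 1)), by simp, Or.inl ⟨rfl, rfl⟩⟩
        simp [len] at this; omega

end Pool.Agent.MP5ce328
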