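import Pool.Agent.Lib.MP_5ce328_co.Full.Defs

/-!
# MP_5ce328_co: the moves with a tail
-/

namespace Pool.Agent.MP5ce328

variable {V : Type*} {G : SimpleGraph V}

/-- a path which contains all of `e` is short -/
theorem LP.cut69 {m : ℕ} {x : ℕ → V} (C : LP G m x) {K : ℕ} {e : List V} (he : Ins G m x K e)
    (L : List (ℕ × ℕ))
    (hL : ∀ s ∈ L, (s.1 < m ∧ s.2 < m) ∨
      (m ≤ s.1 ∧ m ≤ s.2 ∧ s.1 < m + e.length ∧ s.2 < m + e.length))
    (hdis : L.Pairwise Dis)
    (hj : L.IsChain (fun s t => G.Adj (ext x m e s.2) (ext x m e t.1)))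
    (hin : ∃ s ∈ L, (s.1 = m ∧ s.2 = m + (e.length - 1)) ∨ (s.2 = m ∧ s.1 = m + (e.length - 1))) :
    (L.map len).sum + K ≤ m + e.length := by
  have h1 := he.le _ (C.build e he.isP he.off L hL hdis hj) (by
    intro v hv
    obtain ⟨j, hj1, rfl⟩ := List.getElem_of_mem hv
    obtain ⟨s, hs, hs1⟩ := hin
    rw [List.mem_map]
    refine ⟨m + j, mem_cat.2 ⟨s, hs, ?_⟩, ?_⟩
    · rw [mem_seg]
      rcases hs1 with ⟨h2, h3⟩ | ⟨h2, h3⟩
      · left
        omega
      · right
        omega
    · rw [ext_ge, List.getD_eq_getElem e _ hj1])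
  rwa [List.length_map, length_cat] at h1

theorem getD_head69 {e : List V} {g d : V} (h : e.head? = some g) : e.getD 0 d = g := by
  cases e with
  | nil => simp at h
  | cons a l =>
    simp only [List.head?_cons, Option.some.injEq] at h
    simp [h]

theorem LP.mt_between {m : ℕ} {x : ℕ → V} (C : LP G m x) {K s c q : ℕ} (h : Tl G m x K (x q))
    (hs : 1 ≤ s) (hsK : s ≤ K) (hq : q + 1 < m) (hc' : c + s ≤ q)
    (a1 : G.Adj (x (q + 1)) (x c)) (a2 : G.Adj (x 0) (x (c + s))) : False := by
  obtain ⟨e, g, he, h0, a⟩ := h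
  have hpos := he.pos
  have := C.cut69 he [(m + (e.length - 1), m), (q, c + s), (0, c), (q + 1, m - 1)]
    (by simp; omega) (by simp [Dis]; omega)
    (by simp only [List.isChain_cons_cons, List.isChain_singleton, and_true]
        refine ⟨?_, ?_, ?_⟩
        · rw [ext_m, ext_lt (by omega), getD_head69 h0]; exact a
        · rw [ext_lt (by omega), ext_lt (by omega)]; exact a2.symm
        · rw [ext_lt (by omega), ext_lt (by omega)]; exact a1.symm)
    ⟨(m + (e.length - 1), m), by simp, Or.inr ⟨rfl, rfl⟩⟩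
  simp [len] at this; omega

theorem LP.mt_after {m : ℕ} {x : ℕ → V} (C : LP G m x) {K s c q : ℕ} (h : Tl G m x K (x q))
    (hs : 1 ≤ s) (hsK : s ≤ K) (hc : q + 1 ≤ c) (hc' : c + s < m)
    (a1 : G.Adj (x 0) (x c)) (a2 : G.Adj (x (q + 1)) (x (c + s))) : False := by
  obtain ⟨e, g, he, h0, a⟩ := h
  have hpos := he.pos
  have := C.cut69 he [(m + (e.length - 1), m), (q, 0), (c, q + 1), (c + s, m - 1)]
    (by simp; omega) (by simp [Dis]; omega)
    (by simp only [List.isChain_cons_cons, List.isChain_singleton, and_true]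
        refine ⟨?_, ?_, ?_⟩
        · rw [ext_m, ext_lt (by omega), getD_head69 h0]; exact a
        · rw [ext_lt (by omega), ext_lt (by omega)]; exact a1
        · rw [ext_lt (by omega), ext_lt (by omega)]; exact a2)
    ⟨(m + (e.length - 1), m), by simp, Or.inr ⟨rfl, rfl⟩⟩
  simp [len] at this; omega

theorem LP.mt_last_before {m : ℕ} {x : ℕ → V} (C : LP G m x) {K s c q : ℕ}
    (h : Tl G m x K (x q))
    (hs : 1 ≤ s) (hsK : s ≤ K) (hq : q + 1 < m) (hc' : c + s ≤ q)
    (a1 : G.Adj (x (m - 1)) (x c)) (a2 : G.Adj (x (q + 1)) (x (c + s))) : False := by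
  obtain ⟨e, g, he, h0, a⟩ := h
  have hpos := he.pos
  have := C.cut69 he [(0, c), (m - 1, q + 1), (c + s, q), (m, m + (e.length - 1))]
    (by simp; omega) (by simp [Dis]; omega)
    (by simp only [List.isChain_cons_cons, List.isChain_singleton, and_true]
        refine ⟨?_, ?_, ?_⟩
        · rw [ext_lt (by omega), ext_lt (by omega)]; exact a1.symm
        · rw [ext_lt (by omega), ext_lt (by omega)]; exact a2
        · rw [ext_m, ext_lt (by omega), getD_head69 h0]; exact a.symm)
    ⟨(m, m + (e.length - 1)), by simp, Or.inl ⟨rfl, rfl⟩⟩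
  simp [len] at this; omega

theorem LP.mt_last {m : ℕ} {x : ℕ → V} (C : LP G m x) {K s q : ℕ} (h : Tl G m x K (x q))
    (hq : q < m) (hs : 1 ≤ s) (hsK : s ≤ K) (hc : s ≤ q)
    (a1 : G.Adj (x (m - 1)) (x (q - s))) : False := by
  obtain ⟨e, g, he, h0, a⟩ := h
  have hpos := he.pos
  have := C.cut69 he [(m + (e.length - 1), m), (q, m - 1), (q - s, 0)]
    (by simp; omega) (by simp [Dis]; omega)
    (by simp only [List.isChain_cons_cons, List.isChain_singleton, and_true]
        refine ⟨?_, ?_⟩
        · rw [ext_m, ext_lt (by omega), getD_head69 h0]; exact a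
        · rw [ext_lt (by omega), ext_lt (by omega)]; exact a1)
    ⟨(m + (e.length - 1), m), by simp, Or.inr ⟨rfl, rfl⟩⟩
  simp [len] at this; omega

theorem LP.mt_first {m : ℕ} {x : ℕ → V} (C : LP G m x) {K s q : ℕ} (h : Tl G m x K (x q))
    (hs : 1 ≤ s) (hsK : s ≤ K) (hc : q + s < m)
    (a2 : G.Adj (x 0) (x (q + s))) : False := by
  obtain ⟨e, g, he, h0, a⟩ := h
  have hpos := he.pos
  have := C.cut69 he [(m + (e.length - 1), m), (q, 0), (q + s, m - 1)]
    (by simp; omega) (by simp [Dis]; omega)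
    (by simp only [List.isChain_cons_cons, List.isChain_singleton, and_true]
        refine ⟨?_, ?_⟩
        · rw [ext_m, ext_lt (by omega), getD_head69 h0]; exact a
        · rw [ext_lt (by omega), ext_lt (by omega)]; exact a2)
    ⟨(m + (e.length - 1), m), by simp, Or.inr ⟨rfl, rfl⟩⟩
  simp [len] at this; omega

theorem LP.mt_last_first {m : ℕ} {x : ℕ → V} (C : LP G m x) {K s c q : ℕ}
    (h : Tl G m x K (x q)) (hq : q < m)
    (hs : 1 ≤ s) (hsK : s ≤ K) (hc' : c + s < m)
    (a1 : G.Adj (x (m - 1)) (x c)) (a2 : G.Adj (x 0) (x (c + s))) : False := by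
  have h' := h
  obtain ⟨e, g, he, h0, a⟩ := h
  have hpos := he.pos
  rcases Nat.lt_or_ge q c with h1 | h1
  · have := C.cut69 he [(m + (e.length - 1), m), (q, 0), (c + s, m - 1), (c, q + 1)]
      (by simp; omega) (by simp [Dis]; omega)
      (by simp only [List.isChain_cons_cons, List.isChain_singleton, and_true]
          refine ⟨?_, ?_, ?_⟩
          · rw [ext_m, ext_lt (by omega), getD_head69 h0]; exact a
          · rw [ext_lt (by omega), ext_lt (by omega)]; exact a2
          · rw [ext_lt (by omega), ext_lt (by omega)]; exact a1)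
      ⟨(m + (e.length - 1), m), by simp, Or.inr ⟨rfl, rfl⟩⟩
    simp [len] at this; omega
  · rcases Nat.lt_or_ge q (c + s) with h2 | h2
    · exact C.mt_first (s := c + s - q) h' (by omega) (by omega) (by omega) (by
        rw [show q + (c + s - q) = c + s by omega]; exact a2)
    · rcases Nat.lt_or_ge (c + s) q with h3 | h3
      · have := C.cut69 he [(m + (e.length - 1), m), (q, m - 1), (c, 0), (c + s, q - 1)]
          (by simp; omega) (by simp [Dis]; omega)
          (by simp only [List.isChain_cons_cons, List.isChain_singleton, and_true]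
              refine ⟨?_, ?_, ?_⟩
              · rw [ext_m, ext_lt (by omega), getD_head69 h0]; exact a
              · rw [ext_lt (by omega), ext_lt (by omega)]; exact a1
              · rw [ext_lt (by omega), ext_lt (by omega)]; exact a2)
          ⟨(m + (e.length - 1), m), by simp, Or.inr ⟨rfl, rfl⟩⟩
        simp [len] at this; omega
      · exact C.mt_last (s := s) h' hq hs hsK (by omega) (by
          rw [show q - s = c by omega]; exact a1)

end Pool.Agent.MP5ce328
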