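import Pool.Agent.Lib.MP_5ce328_co.Full.CountN
import Pool.Agent.Lib.MP_5ce328_co.Full.MvG
import Pool.Agent.Lib.MP_5ce328_co.Full.MvT

/-!
# Counting for the path
-/

namespace Pool.Agent.MP5ce328

open Finset

variable {V : Type*} {G : SimpleGraph V}

/-- the elements of a finite set of naturals in increasing order -/
theorem exists_enum50 (Q : Finset ℕ) : ∃ t : ℕ → ℕ, (∀ i < Q.card, t i ∈ Q) ∧
    (∀ i j, i < j → j < Q.card → t i < t j) ∧
    (∀ f : ℕ → ℕ, ∑ i ∈ range Q.card, f (t i) = ∑ q ∈ Q, f q) := by
  classical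
  refine ⟨fun i => if h : i < Q.card then Q.orderEmbOfFin rfl ⟨i, h⟩ else 0, ?_, ?_, ?_⟩
  · intro i hi
    simp only [hi, dif_pos]
    exact Q.orderEmbOfFin_mem rfl _
  · intro i j hij hj
    have hi := hij.trans hj
    simp only [hi, hj, dif_pos]
    exact (Q.orderEmbOfFin rfl).strictMono hij
  · intro f
    rw [← Fin.sum_univ_eq_sum_range (fun i => f (if h : i < Q.card then
      Q.orderEmbOfFin rfl ⟨i, h⟩ else 0)) Q.card]
    have h1 : ∑ q ∈ Q, f q = ∑ i : Fin Q.card, f (Q.orderEmbOfFin rfl i) := by
      conv_lhs => rw [← Q.map_orderEmbOfFin_univ rfl]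
      rw [sum_map]
      rfl
    rw [h1]
    refine sum_congr rfl fun i _ => ?_
    rw [dif_pos i.2]

theorem LP.count_full {m : ℕ} {x : ℕ → V} (C : LP G m x) {K X : ℕ} (hX : 1 ≤ X) (hXK : X ≤ K)
    (Q : Finset ℕ) (hQ : Q.card + 1 = X) (hQm : ∀ q ∈ Q, q + 1 < m)
    (p : ℕ) (hp : p < m) (hQp : ∀ q ∈ Q, q < p)
    (hT : ∀ q ∈ Q, Tl G m x K (x q)) (hTp : Tl G m x K (x p))
    (hGQ : ∀ q ∈ Q, ∀ q' ∈ Q, q ≠ q' → Gp G m x K (x q) (x q'))
    (hGp : ∀ q ∈ Q, Gp G m x K (x q) (x p))
    (R : Finset ℕ) (hRm : ∀ r ∈ R, r + 1 < m) (hRl : ∀ r ∈ R, ¬ G.Adj (x (m - 1)) (x r))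
    (hRT : ∀ r ∈ R, Tl G m x K (x r))
    (hRG : ∀ r ∈ R, ∀ q ∈ Q, q ≠ r → Gp G m x K (x q) (x r)) :
    (W G m x (x 0)).card + (∑ q ∈ Q, (W G m x (x (q + 1))).card) +
      (W G m x (x (m - 1))).card + R.card + 1 + X ≤ m + X * X := by
  classical
  obtain ⟨t, t1, t2, t3⟩ := exists_enum50 Q
  have hm : 0 < m := by omega
  -- the labels
  set b : ℕ → ℕ := fun i => if i = 0 then 0 else if i < X then t (i - 1) + 1 else m with hb
  have b0 : b 0 = 0 := by simp [hb]
  have bX : b X = m := by
    have h1 : X ≠ 0 := by omega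
    simp [hb, h1]
  have bi : ∀ i, 1 ≤ i → i < X → b i = t (i - 1) + 1 := by
    intro i h1 h2
    have h3 : i ≠ 0 := by omega
    simp [hb, h3, h2]
  have tQ : ∀ i, 1 ≤ i → i < X → t (i - 1) ∈ Q := fun i h1 h2 => t1 (i - 1) (by omega)
  have tlt : ∀ i j, 1 ≤ i → i < j → j < X → t (i - 1) < t (j - 1) :=
    fun i j h1 h2 h3 => t2 (i - 1) (j - 1) (by omega) (by omega)
  have bstep : ∀ i < X, b i < b (i + 1) := by
    intro i hi
    rcases Nat.eq_zero_or_pos i with h1 | h1
    · rw [h1, b0]
      rcases Nat.lt_or_ge 1 X with h2 | h2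
      · rw [bi 1 le_rfl h2]
        omega
      · rw [show 0 + 1 = X by omega, bX]
        exact hm
    · rw [bi i h1 hi]
      rcases Nat.lt_or_ge (i + 1) X with h2 | h2
      · rw [bi (i + 1) (by omega) h2]
        have := tlt i (i + 1) h1 (by omega) h2
        omega
      · rw [show i + 1 = X by omega, bX]
        exact hQm _ (tQ i h1 hi)
  have bmono : ∀ i j, i ≤ j → j ≤ X → b i ≤ b j := by
    intro i j hij
    induction j, hij using Nat.le_induction with
    | base => intro _; exact le_rfl
    | succ j hj ih =>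
      intro h1
      exact (ih (by omega)).trans (bstep j (by omega)).le
  have bm : ∀ i, i ≤ X → b i ≤ m := fun i hi => bX ▸ bmono i X hi le_rfl
  set B : ℕ → Finset ℕ := fun i => W G m x (x (b i)) with hB
  set Y : Finset ℕ := W G m x (x (m - 1)) ∪ (R ∪ {m - 1}) with hY
  have memB : ∀ i c, c ∈ B i ↔ c < m ∧ G.Adj (x (b i)) (x c) := fun i c => mem_W
  have memB' : ∀ i c, 1 ≤ i → i < X → c ∈ B i → G.Adj (x (t (i - 1) + 1)) (x c) := by
    intro i c h1 h2 h3
    have h4 := ((memB i c).1 h3).2
    rw [bi i h1 h2] at h4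
    exact h4
  have memB0 : ∀ c, c ∈ B 0 → G.Adj (x 0) (x c) := by
    intro c h3
    have h4 := ((memB 0 c).1 h3).2
    rw [b0] at h4
    exact h4
  have memY : ∀ c, c ∈ Y ↔ (c < m ∧ G.Adj (x (m - 1)) (x c)) ∨ c ∈ R ∨ c = m - 1 := by
    intro c
    rw [hY, mem_union, mem_union, mem_singleton, mem_W]
  have key := count_nat m X hX b b0 bX bstep B Y
    (by
      intro i hi c hc
      obtain ⟨h1, h2⟩ := (memB i c).1 hc
      exact ⟨h1, fun h3 => G.irrefl (h3 ▸ h2)⟩)
    (by
      intro c hc
      rcases (memY c).1 hc with h1 | h1 | h1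
      · exact h1.1
      · have := hRm c h1
        omega
      · omega)
    (by
      intro l i j c hli hij hj h1 h2 h3 h4
      have hi1 : 1 ≤ i := by omega
      have h5 : b (l + 1) ≤ b i := bmono _ _ hli (by omega)
      rw [bi i hi1 (by omega)] at h5
      exact C.mv_before (K := K) (s := j - i) (c := c) (p := t (i - 1)) (q := t (j - 1))
        (hGQ _ (tQ i hi1 (by omega)) _ (tQ j (by omega) hj) (tlt i j hi1 hij hj).ne)
        (by omega) (by omega) (tlt i j hi1 hij hj) (hQm _ (tQ j (by omega) hj)) (by omega)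
        (memB' i c hi1 (by omega) h3) (memB' j _ (by omega) hj h4))
    (by
      intro l i j c hil hlj hj h1 h2 h3 h4
      have h5 : b (l + 1) ≤ b j := bmono _ _ hlj (by omega)
      rw [bi j (by omega) hj] at h5
      rcases Nat.eq_zero_or_pos i with h0 | hi1
      · subst h0
        exact C.mt_between (K := K) (s := X - (j - 0)) (c := c) (q := t (j - 1))
          (hT _ (tQ j (by omega) hj)) (by omega) (by omega) (hQm _ (tQ j (by omega) hj))
          (by omega) (memB' j c (by omega) hj h3) (memB0 _ h4)
      · have h6 : b i ≤ b l := bmono _ _ hil (by omega)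
        rw [bi i hi1 (by omega)] at h6
        exact C.mv_between (K := K) (s := X - (j - i)) (c := c) (p := t (i - 1)) (q := t (j - 1))
          (hGQ _ (tQ i hi1 (by omega)) _ (tQ j (by omega) hj) (tlt i j hi1 (by omega) hj).ne)
          (by omega) (by omega) (hQm _ (tQ j (by omega) hj)) (by omega) (by omega)
          (memB' j c (by omega) hj h3) (memB' i _ hi1 (by omega) h4))
    (by
      intro l i j c hij hjl hl h1 h2 h3 h4
      have h5 : b j ≤ b l := bmono _ _ hjl (by omega)
      rw [bi j (by omega) (by omega)] at h5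
      have h6 := bm (l + 1) (by omega)
      rcases Nat.eq_zero_or_pos i with h0 | hi1
      · subst h0
        exact C.mt_after (K := K) (s := j - 0) (c := c) (q := t (j - 1))
          (hT _ (tQ j (by omega) (by omega))) (by omega) (by omega) (by omega) (by omega)
          (memB0 _ h3) (memB' j _ (by omega) (by omega) h4)
      · exact C.mv_after (K := K) (s := j - i) (c := c) (p := t (i - 1)) (q := t (j - 1))
          (hGQ _ (tQ i hi1 (by omega)) _ (tQ j (by omega) (by omega))
            (tlt i j hi1 hij (by omega)).ne)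
          (by omega) (by omega) (tlt i j hi1 hij (by omega)) (by omega) (by omega)
          (memB' i c hi1 (by omega) h3) (memB' j _ (by omega) (by omega) h4))
    (by
      intro l i c hil hl h1 h2 h3 h4
      have h6 := bm (l + 1) (by omega)
      rcases Nat.eq_zero_or_pos i with h0 | hi1
      · subst h0
        rcases (memY c).1 h3 with h7 | h7 | h7
        · exact C.mt_last_first (K := K) (s := X - (l - 0)) (c := c) (q := p) hTp hp
            (by omega) (by omega) (by omega) h7.2 (memB0 _ h4)
        · exact C.mt_first (K := K) (s := X - (l - 0)) (q := c) (hRT c h7)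
            (by omega) (by omega) (by omega) (memB0 _ h4)
        · omega
      · have h5 : b i ≤ b l := bmono _ _ hil (by omega)
        rw [bi i hi1 (by omega)] at h5
        have hq := tQ i hi1 (by omega)
        rcases (memY c).1 h3 with h7 | h7 | h7
        · exact C.mv_last_after (K := K) (s := X - (l - i)) (c := c) (p := t (i - 1)) (q := p)
            (hGp _ hq) (by omega) (by omega) (hQp _ hq) hp (by omega) (by omega) h7.2
            (memB' i _ hi1 (by omega) h4)
        · exact C.mv_res_right (K := K) (s := X - (l - i)) (p := t (i - 1)) (q := c)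
            (hRG c h7 _ hq (by omega)) (by omega) (by omega) (by omega) (by omega)
            (memB' i _ hi1 (by omega) h4)
        · omega)
    (by
      intro l i c hli hi h1 h2 h3 h4
      have hi1 : 1 ≤ i := by omega
      have h5 : b (l + 1) ≤ b i := bmono _ _ hli (by omega)
      rw [bi i hi1 hi] at h5
      have hq := tQ i hi1 hi
      have hq1 := hQm _ hq
      rcases (memY c).1 h3 with h7 | h7 | h7
      · exact C.mt_last_before (K := K) (s := i - l) (c := c) (q := t (i - 1))
          (hT _ hq) (by omega) (by omega) hq1 (by omega) h7.2 (memB' i _ hi1 hi h4)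
      · exact C.mv_res_left (K := K) (s := i - l) (p := t (i - 1)) (q := c)
          (hRG c h7 _ hq (by omega)).symm (by omega) (by omega) hq1 (by omega)
          (memB' i _ hi1 hi h4)
      · omega)
  have hcY : Y.card = (W G m x (x (m - 1))).card + (R.card + 1) := by
    rw [hY, card_union_of_disjoint, card_union_of_disjoint, card_singleton]
    · rw [disjoint_left]
      intro r hr hr'
      rw [mem_singleton] at hr'
      have := hRm r hr
      omega
    · rw [disjoint_left]
      intro r hr hr'
      obtain ⟨h1, h2⟩ := mem_W.1 hr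
      rw [mem_union, mem_singleton] at hr'
      rcases hr' with h3 | h3
      · exact hRl r h3 h2
      · rw [h3] at h2
        exact G.irrefl h2
  have hsum : ∑ i ∈ range X, (B i).card = (W G m x (x 0)).card +
      ∑ q ∈ Q, (W G m x (x (q + 1))).card := by
    have e0 : (B 0).card = (W G m x (x 0)).card := by
      simp only [hB]
      rw [b0]
    have e1 : ∑ i ∈ range Q.card, (B (i + 1)).card =
        ∑ i ∈ range Q.card, (W G m x (x (t i + 1))).card := by
      refine sum_congr rfl fun i hi => ?_
      rw [mem_range] at hi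
      simp only [hB]
      rw [bi (i + 1) (by omega) (by omega), Nat.add_sub_cancel]
    rw [← t3 (fun q => (W G m x (x (q + 1))).card), ← hQ, sum_range_succ', e0, e1, add_comm]
  rw [hsum, hcY] at key
  omega

end Pool.Agent.MP5ce328
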