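import Pool.Agent.Lib.MP_5ce328_co.Full.Defs

namespace Pool.Agent.MP5ce328

open Finset

theorem count_seg58 (x l : ℕ) (hl : l < x) (b : ℕ → ℕ)
    (hb : b l < b (l + 1)) (B : ℕ → Finset ℕ) (Y : Finset ℕ)
    (hB : ∀ c ∈ B l, c ≠ b l)
    (ha : ∀ i j c, l < i → i < j → j < x → b l ≤ c → c + (j - i) < b (l + 1) →
      c ∈ B i → c + (j - i) ∈ B j → False)
    (hbt : ∀ i j c, i ≤ l → l < j → j < x → b l ≤ c → c + (x - (j - i)) < b (l + 1) →
      c ∈ B j → c + (x - (j - i)) ∈ B i → False)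
    (hc : ∀ i j c, i < j → j ≤ l → b l ≤ c → c + (j - i) < b (l + 1) →
      c ∈ B i → c + (j - i) ∈ B j → False)
    (hY1 : ∀ i c, i ≤ l → b l ≤ c → c + (x - (l - i)) < b (l + 1) →
      c ∈ Y → c + (x - (l - i)) ∈ B i → False)
    (hY2 : ∀ i c, l < i → i < x → b l ≤ c → c + (i - l) < b (l + 1) →
      c ∈ Y → c + (i - l) ∈ B i → False) :
    (∑ i ∈ range (x + 1), ((if i < x then B i else Y) ∩ Ico (b l) (b (l + 1))).card) + 1 ≤
      (b (l + 1) - b l) + x := by
  set D : ℕ → Finset ℕ := fun i => (if i < x then B i else Y) ∩ Ico (b l) (b (l + 1)) with hD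
  set t : ℕ → ℕ := fun i => if i < x then (if i ≤ l then l - i else x + l - i) else x with ht
  have hcard : ∀ i, ((D i).image (· + t i)).card = (D i).card := fun i =>
    card_image_of_injective _ (fun a c h => by simpa using h)
  have t1 : ∀ i, i < x → i ≤ l → t i = l - i := fun i h1 h2 => by
    simp only [ht, if_pos h1, if_pos h2]
  have t2 : ∀ i, i < x → l < i → t i = x + l - i := fun i h1 h2 => by
    simp only [ht, if_pos h1, if_neg (Nat.not_le.2 h2)]
  have t3 : ∀ i, x ≤ i → t i = x := fun i h1 => by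
    simp only [ht, if_neg (Nat.not_lt.2 h1)]
  have d1 : ∀ i c, i < x → (c ∈ D i ↔ c ∈ B i ∧ b l ≤ c ∧ c < b (l + 1)) := fun i c h1 => by
    simp only [hD, if_pos h1, mem_inter, mem_Ico]
  have d2 : ∀ i c, x ≤ i → (c ∈ D i ↔ c ∈ Y ∧ b l ≤ c ∧ c < b (l + 1)) := fun i c h1 => by
    simp only [hD, if_neg (Nat.not_lt.2 h1), mem_inter, mem_Ico]
  have key : ∀ i j c c', i < j → j < x + 1 → c ∈ D i → c' ∈ D j → c + t i = c' + t j → False := by
    intro i j c c' hij hj h1 h2 h3
    rw [d1 i c (by omega)] at h1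
    rcases Nat.lt_or_ge j x with hjx | hjx
    · rw [d1 j c' hjx] at h2
      rcases Nat.lt_or_ge l i with h4 | h4
      · rw [t2 i (by omega) h4, t2 j hjx (by omega)] at h3
        have e : c' = c + (j - i) := by omega
        exact ha i j c h4 hij hjx h1.2.1 (by omega) h1.1 (e ▸ h2.1)
      · rcases Nat.lt_or_ge l j with h5 | h5
        · rw [t1 i (by omega) h4, t2 j hjx h5] at h3
          have e : c = c' + (x - (j - i)) := by omega
          exact hbt i j c' h4 h5 hjx h2.2.1 (by omega) h2.1 (e ▸ h1.1)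
        · rw [t1 i (by omega) h4, t1 j hjx h5] at h3
          have e : c' = c + (j - i) := by omega
          exact hc i j c hij h5 h1.2.1 (by omega) h1.1 (e ▸ h2.1)
    · rw [d2 j c' hjx] at h2
      rcases Nat.lt_or_ge l i with h4 | h4
      · rw [t2 i (by omega) h4, t3 j hjx] at h3
        have e : c = c' + (i - l) := by omega
        exact hY2 i c' h4 (by omega) h2.2.1 (by omega) h2.1 (e ▸ h1.1)
      · rw [t1 i (by omega) h4, t3 j hjx] at h3
        have e : c = c' + (x - (l - i)) := by omega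
        exact hY1 i c' h4 h2.2.1 (by omega) h2.1 (e ▸ h1.1)
  have hdisj : Set.PairwiseDisjoint (↑(range (x + 1)) : Set ℕ)
      (fun i => (D i).image (· + t i)) := by
    intro i hi j hj hij
    rw [mem_coe, mem_range] at hi hj
    change Disjoint ((D i).image (· + t i)) ((D j).image (· + t j))
    rw [disjoint_left]
    intro v hv hv'
    rw [mem_image] at hv hv'
    obtain ⟨c, hc1, hc2⟩ := hv
    obtain ⟨c', hc3, hc4⟩ := hv'
    rcases Nat.lt_or_gt_of_ne hij with h | h
    · exact key i j c c' h hj hc1 hc3 (hc2.trans hc4.symm)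
    · exact key j i c' c h hi hc3 hc1 (hc4.trans hc2.symm)
  have hsub : (range (x + 1)).biUnion (fun i => (D i).image (· + t i)) ⊆
      Ioc (b l) (b (l + 1) - 1 + x) := by
    intro v hv
    rw [mem_biUnion] at hv
    obtain ⟨i, hi, hv⟩ := hv
    rw [mem_image] at hv
    obtain ⟨c, hc1, rfl⟩ := hv
    rw [mem_range] at hi
    rw [mem_Ioc]
    rcases Nat.lt_or_ge i x with h4 | h4
    · rw [d1 i c h4] at hc1
      rcases Nat.lt_or_ge l i with h5 | h5
      · rw [t2 i h4 h5]
        omega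
      · rw [t1 i h4 h5]
        rcases Nat.eq_or_lt_of_le h5 with h6 | h6
        · subst h6
          have := hB c hc1.1
          omega
        · omega
    · rw [d2 i c h4] at hc1
      rw [t3 i h4]
      omega
  have h1 := card_le_card hsub
  rw [card_biUnion hdisj, Nat.card_Ioc] at h1
  simp only [hcard] at h1
  have h2 : (∑ i ∈ range (x + 1), ((if i < x then B i else Y) ∩ Ico (b l) (b (l + 1))).card) =
      ∑ i ∈ range (x + 1), (D i).card := rfl
  rw [h2]
  omega

theorem count_nat (m x : ℕ) (hx : 1 ≤ x) (b : ℕ → ℕ) (hb0 : b 0 = 0) (hbx : b x = m)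
    (hb : ∀ i < x, b i < b (i + 1)) (B : ℕ → Finset ℕ) (Y : Finset ℕ)
    (hB : ∀ i < x, ∀ c ∈ B i, c < m ∧ c ≠ b i) (hY : ∀ c ∈ Y, c < m)
    (ha : ∀ l i j c, l < i → i < j → j < x → b l ≤ c → c + (j - i) < b (l + 1) →
      c ∈ B i → c + (j - i) ∈ B j → False)
    (hbt : ∀ l i j c, i ≤ l → l < j → j < x → b l ≤ c → c + (x - (j - i)) < b (l + 1) →
      c ∈ B j → c + (x - (j - i)) ∈ B i → False)
    (hc : ∀ l i j c, i < j → j ≤ l → l < x → b l ≤ c → c + (j - i) < b (l + 1) →
      c ∈ B i → c + (j - i) ∈ B j → False)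
    (hY1 : ∀ l i c, i ≤ l → l < x → b l ≤ c → c + (x - (l - i)) < b (l + 1) →
      c ∈ Y → c + (x - (l - i)) ∈ B i → False)
    (hY2 : ∀ l i c, l < i → i < x → b l ≤ c → c + (i - l) < b (l + 1) →
      c ∈ Y → c + (i - l) ∈ B i → False) :
    (∑ i ∈ range x, (B i).card) + Y.card + x ≤ m + x * x := by
  have hseg : ∀ l < x, (∑ i ∈ range (x + 1),
      ((if i < x then B i else Y) ∩ Ico (b l) (b (l + 1))).card) + 1 ≤
      (b (l + 1) - b l) + x := fun l hl =>
    count_seg58 x l hl b (hb l hl) B Y (fun c hcB => (hB l hl c hcB).2) (ha l) (hbt l)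
      (fun i j c h1 h2 => hc l i j c h1 h2 hl) (fun i c h1 => hY1 l i c h1 hl) (hY2 l)
  -- telescoping
  have htel : ∀ y ≤ x, (∑ l ∈ range y, ∑ i ∈ range (x + 1),
      ((if i < x then B i else Y) ∩ Ico (b l) (b (l + 1))).card) + y ≤ b y + y * x := by
    intro y
    induction y with
    | zero => intro _; simp [hb0]
    | succ y ih =>
      intro hy
      have h1 := ih (by omega)
      have h2 := hseg y (by omega)
      have h3 := hb y (by omega)
      rw [sum_range_succ]
      have h4 : (y + 1) * x = y * x + x := by ring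
      omega
  have h1 := htel x le_rfl
  rw [sum_comm, hbx] at h1
  -- the segments cover everything
  have hcov : ∀ y ≤ x, ∀ c < b y, ∃ l < y, b l ≤ c ∧ c < b (l + 1) := by
    intro y
    induction y with
    | zero => intro _ c hc; omega
    | succ y ih =>
      intro hy c hc
      rcases Nat.lt_or_ge c (b y) with h | h
      · obtain ⟨l, hl, h2⟩ := ih (by omega) c h
        exact ⟨l, by omega, h2⟩
      · exact ⟨y, by omega, h, hc⟩
  have hle : ∀ S : Finset ℕ, (∀ c ∈ S, c < m) →
      S.card ≤ ∑ l ∈ range x, (S ∩ Ico (b l) (b (l + 1))).card := by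
    intro S hS
    refine (card_le_card ?_).trans card_biUnion_le
    intro c hcS
    obtain ⟨l, hl, h2, h3⟩ := hcov x le_rfl c (by rw [hbx]; exact hS c hcS)
    rw [mem_biUnion]
    exact ⟨l, mem_range.2 hl, by rw [mem_inter, mem_Ico]; exact ⟨hcS, h2, h3⟩⟩
  rw [sum_range_succ] at h1
  have h5 : ∑ i ∈ range x, (B i).card ≤ ∑ i ∈ range x, ∑ l ∈ range x,
      ((if i < x then B i else Y) ∩ Ico (b l) (b (l + 1))).card := by
    refine sum_le_sum ?_
    intro i hi
    rw [mem_range] at hi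
    simp only [if_pos hi]
    exact hle _ (fun c hcB => (hB i hi c hcB).1)
  have h6 : Y.card ≤ ∑ l ∈ range x,
      ((if x < x then B x else Y) ∩ Ico (b l) (b (l + 1))).card := by
    simp only [lt_irrefl, if_false]
    exact hle _ hY
  omega

end Pool.Agent.MP5ce328
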