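import Pool.Agent.Lib.MP_5ce328_co.Exc

namespace Pool.Agent.MP5ce328

open Finset

variable {V : Type*} {G : SimpleGraph V}

/-- the subgraph induced on `S` is connected (by cuts) -/
def Cn (G : SimpleGraph V) (S : Finset V) : Prop :=
  ∀ T ⊆ S, T.Nonempty → (∃ b ∈ S, b ∉ T) → ∃ a ∈ T, ∃ b ∈ S, b ∉ T ∧ G.Adj a b

/-- `l` is a path of `G` from `a` to `b` inside `S` -/
structure PathIn (G : SimpleGraph V) (S : Finset V) (a b : V) (l : List V) : Prop where
  isP : IsP G l
  hd : l.head? = some a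
  lst : l.getLast? = some b
  mem : ∀ v ∈ l, v ∈ S

/-- `e` is a path off the path `x`, and no path of `G` which contains all of `e` has more than
`m + |e| - K` vertices -/
structure Ins (G : SimpleGraph V) (m : ℕ) (x : ℕ → V) (K : ℕ) (e : List V) : Prop where
  isP : IsP G e
  off : ∀ v ∈ e, Off m x v
  pos : 1 ≤ e.length
  le : ∀ l : List V, IsP G l → (∀ v ∈ e, v ∈ l) → l.length + K ≤ m + e.length

/-- tail at the vertex `t` -/
def Tl (G : SimpleGraph V) (m : ℕ) (x : ℕ → V) (K : ℕ) (t : V) : Prop :=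
  ∃ e g, Ins G m x K e ∧ e.head? = some g ∧ G.Adj g t

/-- detour between the vertices `t` and `t'` -/
def Gp (G : SimpleGraph V) (m : ℕ) (x : ℕ → V) (K : ℕ) (t t' : V) : Prop :=
  ∃ e g g', Ins G m x K e ∧ e.head? = some g ∧ e.getLast? = some g' ∧ G.Adj g t ∧ G.Adj g' t'

theorem IsP.reverse {l : List V} (h : IsP G l) : IsP G l.reverse :=
  ⟨List.nodup_reverse.2 h.1, by
    rw [List.isChain_reverse]
    exact h.2.imp (fun _ _ a => a.symm)⟩

theorem Ins.reverse {m : ℕ} {x : ℕ → V} {K : ℕ} {e : List V} (h : Ins G m x K e) :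
    Ins G m x K e.reverse where
  isP := h.isP.reverse
  off := fun v hv => h.off v (List.mem_reverse.1 hv)
  pos := by rw [List.length_reverse]; exact h.pos
  le := fun l hl hm => by
    rw [List.length_reverse]
    exact h.le l hl (fun v hv => hm v (List.mem_reverse.2 hv))

theorem Gp.symm {m : ℕ} {x : ℕ → V} {K : ℕ} {t t' : V} (h : Gp G m x K t t') :
    Gp G m x K t' t := by
  obtain ⟨e, g, g', h1, h2, h3, h4, h5⟩ := h
  exact ⟨e.reverse, g', g, h1.reverse, by simpa using h3, by simpa using h2, h5, h4⟩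

theorem Gp.tl {m : ℕ} {x : ℕ → V} {K : ℕ} {t t' : V} (h : Gp G m x K t t') :
    Tl G m x K t := by
  obtain ⟨e, g, g', h1, h2, h3, h4, h5⟩ := h
  exact ⟨e, g, h1, h2, h4⟩

theorem Ins.same {m : ℕ} {x y : ℕ → V} (S : Same m x y) {K : ℕ} {e : List V}
    (h : Ins G m x K e) : Ins G m y K e :=
  ⟨h.isP, fun v hv => S.off (h.off v hv), h.pos, h.le⟩

theorem Gp.same {m : ℕ} {x y : ℕ → V} (S : Same m x y) {K : ℕ} {t t' : V}
    (h : Gp G m x K t t') : Gp G m y K t t' := by
  obtain ⟨e, g, g', h1, h2⟩ := h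
  exact ⟨e, g, g', h1.same S, h2⟩

theorem Tl.same {m : ℕ} {x y : ℕ → V} (S : Same m x y) {K : ℕ} {t : V}
    (h : Tl G m x K t) : Tl G m y K t := by
  obtain ⟨e, g, h1, h2⟩ := h
  exact ⟨e, g, h1.same S, h2⟩

/-- a longest path among those through `w` -/
structure LW (G : SimpleGraph V) (w : V) (m : ℕ) (x : ℕ → V) : Prop where
  pos : 0 < m
  inj : ∀ i < m, ∀ j < m, x i = x j → i = j
  adj : ∀ i, i + 1 < m → G.Adj (x i) (x (i + 1))
  mem : ∃ i < m, x i = w
  max : ∀ l : List V, IsP G l → w ∈ l → l.length ≤ m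

end Pool.Agent.MP5ce328
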