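import Pool.Agent.Lib.MP_5ce328_co.Full.Defs

/-!
# MP_5ce328_co: detours between ports
-/

namespace Pool.Agent.MP5ce328

open Finset

variable {V : Type*} {G : SimpleGraph V}

/-- ports: `a ∈ A` adjacent to `t`, or `a = b` and some vertex of `H \ A` is adjacent to `t` -/
def Pt (G : SimpleGraph V) (H A : Finset V) (b : V) (a t : V) : Prop :=
  (a ∈ A ∧ G.Adj a t) ∨ (a = b ∧ ∃ g ∈ H, g ∉ A ∧ G.Adj g t)

theorem PathIn.reverse69 {S : Finset V} {a b : V} {l : List V} (h : PathIn G S a b l) :
    PathIn G S b a l.reverse where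
  isP := h.isP.reverse
  hd := by rw [List.head?_reverse]; exact h.lst
  lst := by rw [List.getLast?_reverse]; exact h.hd
  mem := fun v hv => h.mem v (List.mem_reverse.1 hv)

theorem PathIn.mono69 {S S' : Finset V} (hS : S ⊆ S') {a b : V} {l : List V}
    (h : PathIn G S a b l) : PathIn G S' a b l :=
  ⟨h.isP, h.hd, h.lst, fun v hv => hS (h.mem v hv)⟩

theorem pathIn69 {S : Finset V} (hS : Cn G S) {a b : V} (ha : a ∈ S)
    (hb : b ∈ S) : ∃ l, PathIn G S a b l := by
  classical
  by_contra hc
  set T : Finset V := S.filter (fun v => ∃ l, PathIn G S a v l) with hT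
  have haT : a ∈ T := by
    rw [hT, mem_filter]
    exact ⟨ha, [a], ⟨by simp, by simp⟩, by simp, by simp, by simpa using ha⟩
  have hbT : b ∉ T := by
    rw [hT, mem_filter]
    exact fun h => hc h.2
  obtain ⟨u, hu, v, hv, hvT, huv⟩ := hS T (filter_subset _ _) ⟨a, haT⟩ ⟨b, hb, hbT⟩
  obtain ⟨_, l, hl⟩ := mem_filter.1 hu
  apply hvT
  rw [hT, mem_filter]
  refine ⟨hv, ?_⟩
  by_cases hvl : v ∈ l
  · obtain ⟨l1, l2, e⟩ := List.append_of_mem hvl
    have e' : l = (l1 ++ [v]) ++ l2 := by rw [e]; simp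
    have h1 := hl.isP
    have h2 := hl.hd
    rw [e'] at h1 h2
    refine ⟨l1 ++ [v], ⟨(List.nodup_append.1 h1.1).1, (List.isChain_append.1 h1.2).1⟩, ?_,
      by simp, ?_⟩
    · cases l1 with
      | nil => simpa using h2
      | cons c l1 => simpa using h2
    · intro w hw
      exact hl.mem w (by rw [e']; exact List.mem_append_left _ hw)
  · refine ⟨l ++ [v], ⟨?_, ?_⟩, ?_, by simp, ?_⟩
    · rw [List.nodup_append]
      refine ⟨hl.isP.1, by simp, ?_⟩
      intro w hw w' hw' e
      rw [List.mem_singleton] at hw'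
      subst hw'
      subst e
      exact hvl hw
    · rw [List.isChain_append]
      refine ⟨hl.isP.2, by simp, ?_⟩
      intro w hw w' hw'
      have h3 := hl.lst
      rw [Option.mem_def, h3] at hw
      simp only [Option.some.injEq] at hw
      simp only [List.head?_cons, Option.mem_def, Option.some.injEq] at hw'
      subst hw
      subst hw'
      exact huv
    · have h3 := hl.hd
      cases l with
      | nil => simp at h3
      | cons c l => simpa using h3
    · intro w hw
      rw [List.mem_append, List.mem_singleton] at hw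
      rcases hw with hw | rfl
      · exact hl.mem w hw
      · exact hv

/-- paths which meet only in their common end are put together -/
theorem PathIn.append69 {S S' T : Finset V} {a b c : V} {l l' : List V}
    (h : PathIn G S a b l) (h' : PathIn G S' b c l') (hST : S ⊆ T) (hST' : S' ⊆ T)
    (hd : ∀ v ∈ S, v ∈ S' → v = b) : PathIn G T a c (l ++ l'.tail) := by
  have h0 := h'.hd
  have h9 := h'.lst
  have h1 := h'.isP
  have h2 := h'.mem
  cases l' with
  | nil => simp at h0
  | cons b' l2 =>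
    simp only [List.head?_cons, Option.some.injEq] at h0
    subst h0
    rw [List.tail_cons]
    have hne : l ≠ [] := by
      intro e
      have := h.hd
      rw [e] at this
      simp at this
    refine ⟨⟨?_, ?_⟩, ?_, ?_, ?_⟩
    · rw [List.nodup_append]
      refine ⟨h.isP.1, (List.nodup_cons.1 h1.1).2, ?_⟩
      intro w hw w' hw' e
      subst e
      have h3 := hd w (h.mem w hw) (h2 w (List.mem_cons_of_mem _ hw'))
      subst h3
      exact (List.nodup_cons.1 h1.1).1 hw'
    · rw [List.isChain_append]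
      refine ⟨h.isP.2, h1.2.tail, ?_⟩
      intro w hw w' hw'
      rw [Option.mem_def, h.lst] at hw
      simp only [Option.some.injEq] at hw
      subst hw
      have h4 := h1.2
      rw [List.isChain_cons] at h4
      exact h4.1 w' hw'
    · rw [List.head?_append_of_ne_nil _ hne]
      exact h.hd
    · cases l2 with
      | nil =>
        rw [List.append_nil]
        simp only [List.getLast?_singleton, Option.some.injEq] at h9
        subst h9
        exact h.lst
      | cons d l2 =>
        rw [List.getLast?_append]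
        rw [List.getLast?_cons_cons] at h9
        rw [h9]
        rfl
    · intro w hw
      rw [List.mem_append] at hw
      rcases hw with hw | hw
      · exact hST (h.mem w hw)
      · exact hST' (h2 w (List.mem_cons_of_mem _ hw))

/-- Full/Det.lean -/
theorem detour [DecidableEq V] (H A : Finset V) (b : V) (hAH : A ⊆ H) (hbH : b ∈ H) (hbA : b ∉ A)
    (hHA : Cn G (H \ A)) {d : ℕ}
    (hF : ∀ u ∈ insert b A, ∀ v ∈ insert b A, u ≠ v →
      ∃ l, PathIn G (insert b A) u v l ∧ d ≤ l.length)
    {a a' t t' : V} (ha : a ∈ insert b A) (ha' : a' ∈ insert b A) (hne : a ≠ a')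
    (h : Pt G H A b a t) (h' : Pt G H A b a' t') :
    ∃ e g g', PathIn G H g g' e ∧ d ≤ e.length ∧ G.Adj g t ∧ G.Adj g' t' := by
  have hBH : insert b A ⊆ H := insert_subset hbH hAH
  obtain ⟨l, hl, hdl⟩ := hF a ha a' ha' hne
  -- extension at the second end
  have key : ∀ {u t t' : V} {l : List V}, PathIn G (insert b A) u b l → d ≤ l.length →
      G.Adj u t → (∃ g ∈ H, g ∉ A ∧ G.Adj g t') →
      ∃ e g g', PathIn G H g g' e ∧ d ≤ e.length ∧ G.Adj g t ∧ G.Adj g' t' := by
    intro u t t' l hl hdl hut ⟨g, hgH, hgA, hgt⟩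
    obtain ⟨l2, hl2⟩ := pathIn69 hHA (a := b) (b := g) (mem_sdiff.2 ⟨hbH, hbA⟩)
      (mem_sdiff.2 ⟨hgH, hgA⟩)
    refine ⟨l ++ l2.tail, u, g, hl.append69 hl2 hBH sdiff_subset ?_, ?_, hut, hgt⟩
    · intro v hv hv'
      rw [mem_insert] at hv
      exact hv.resolve_right (mem_sdiff.1 hv').2
    · rw [List.length_append]
      omega
  rcases h with ⟨h1, h2⟩ | ⟨h1, h2⟩
  · rcases h' with ⟨h3, h4⟩ | ⟨h3, h4⟩
    · exact ⟨l, a, a', hl.mono69 hBH, hdl, h2, h4⟩
    · subst h3
      exact key hl hdl h2 h4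
  · rcases h' with ⟨h3, h4⟩ | ⟨h3, h4⟩
    · subst h1
      obtain ⟨e, g, g', h5, h6, h7, h8⟩ := key hl.reverse69 (by rw [List.length_reverse]; exact hdl)
        h4 h2
      exact ⟨e.reverse, g', g, h5.reverse69, by rw [List.length_reverse]; exact h6, h8, h7⟩
    · exact absurd (h1.trans h3.symm) hne

/-- one-ended version -/
theorem det_tail [DecidableEq V] (H A : Finset V) (b : V) (hAH : A ⊆ H) (hbH : b ∈ H)
    (hbA : b ∉ A) (hHA : Cn G (H \ A)) {d : ℕ}
    (hF : ∀ u ∈ insert b A, ∀ v ∈ insert b A, u ≠ v →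
      ∃ l, PathIn G (insert b A) u v l ∧ d ≤ l.length)
    {a a' t : V} (ha : a ∈ insert b A) (ha' : a' ∈ insert b A) (hne : a ≠ a')
    (h : Pt G H A b a t) : ∃ e g, PathIn G H g a' e ∧ d ≤ e.length ∧ G.Adj g t := by
  have hBH : insert b A ⊆ H := insert_subset hbH hAH
  rcases h with ⟨h1, h2⟩ | ⟨h1, g, hgH, hgA, hgt⟩
  · obtain ⟨l, hl, hdl⟩ := hF a ha a' ha' hne
    exact ⟨l, a, hl.mono69 hBH, hdl, h2⟩
  · subst h1
    obtain ⟨l, hl, hdl⟩ := hF a' ha' a ha hne.symm
    obtain ⟨l2, hl2⟩ := pathIn69 hHA (a := a) (b := g) (mem_sdiff.2 ⟨hbH, hbA⟩)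
      (mem_sdiff.2 ⟨hgH, hgA⟩)
    have h3 : PathIn G H a' g (l ++ l2.tail) := by
      refine hl.append69 hl2 hBH sdiff_subset ?_
      intro v hv hv'
      rw [mem_insert] at hv
      exact hv.resolve_right (mem_sdiff.1 hv').2
    exact ⟨(l ++ l2.tail).reverse, g, h3.reverse69, by
      rw [List.length_reverse, List.length_append]; omega, hgt⟩

end Pool.Agent.MP5ce328
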