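import Pool.Agent.Lib.MP_5ce328_co.Full.Defs

/-! End part (row EP of the full answer). -/

namespace Pool.Agent.MP5ce328

open Finset

variable {V : Type*} {G : SimpleGraph V}

/-- `A` is attached in `S` at the one vertex `b` -/
structure Att (G : SimpleGraph V) (S A : Finset V) (b : V) : Prop where
  ne : A.Nonempty
  bS : b ∈ S
  bA : b ∉ A
  nb : ∀ a ∈ A, ∀ w ∈ S, G.Adj a w → w ∈ A ∨ w = b

theorem end_part [DecidableEq V] (S : Finset V) (hS : Cn G S) {v : V} (hv : v ∈ S)
    (h2 : 2 ≤ S.card) :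
    ∃ (A : Finset V) (b : V), A ⊆ S.erase v ∧ A.Nonempty ∧ b ∈ S ∧ b ∉ A ∧
      (∀ a ∈ A, ∀ w ∈ S, G.Adj a w → w ∈ A ∨ w = b) ∧ Cn G (insert b A) ∧
      (∀ w, Cn G ((insert b A).erase w)) ∧ Cn G (S \ A) := by
  classical
  -- a minimal attached set
  have hex : ∃ n : ℕ, ∃ (A : Finset V) (b : V), A ⊆ S.erase v ∧ Att G S A b ∧ A.card = n := by
    refine ⟨_, S.erase v, v, Finset.Subset.refl _, ⟨?_, hv, Finset.notMem_erase v S, ?_⟩, rfl⟩
    · rw [← Finset.card_pos, Finset.card_erase_of_mem hv]; omega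
    · intro a _ w hw _
      rcases eq_or_ne w v with h | h
      · exact Or.inr h
      · exact Or.inl (Finset.mem_erase.2 ⟨h, hw⟩)
  obtain ⟨A, b, hAS, hA, hcard⟩ := Nat.find_spec hex
  have hmin : ∀ (T : Finset V) (c : V), T ⊆ A → Att G S T c → (∃ a ∈ A, a ∉ T) → False := by
    intro T c hTA hT ha
    obtain ⟨a, haA, haT⟩ := ha
    have hlt : T.card < A.card :=
      Finset.card_lt_card (Finset.ssubset_iff_subset_ne.2 ⟨hTA, fun h => haT (h ▸ haA)⟩)
    exact Nat.find_min hex (hcard ▸ hlt) ⟨T, c, hTA.trans hAS, hT, rfl⟩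
  have hAS' : A ⊆ S := hAS.trans (Finset.erase_subset _ _)
  -- a cut with no edges can be turned around
  have key : ∀ U : Finset V,
      (∀ T ⊆ U, T.Nonempty → b ∉ T → (∃ c ∈ U, c ∉ T) → ∃ a ∈ T, ∃ c ∈ U, c ∉ T ∧ G.Adj a c) →
      Cn G U := by
    intro U hU T hTU hTne hTc
    by_cases hb : b ∈ T
    · obtain ⟨c, hcU, hcT⟩ := hTc
      obtain ⟨t, ht⟩ := hTne
      obtain ⟨a, ha, w, hw, hwT, haw⟩ := hU (U \ T) Finset.sdiff_subset
        ⟨c, Finset.mem_sdiff.2 ⟨hcU, hcT⟩⟩ (fun h => (Finset.mem_sdiff.1 h).2 hb)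
        ⟨t, hTU ht, fun h => (Finset.mem_sdiff.1 h).2 ht⟩
      rw [Finset.mem_sdiff] at ha hwT
      refine ⟨w, ?_, a, ha.1, ha.2, haw.symm⟩
      by_contra hc
      exact hwT ⟨hw, hc⟩
    · exact hU T hTU hTne hb hTc
  have h1 : Cn G (insert b A) := by
    refine key _ fun T hT hTne hb _ => ?_
    have hTA : T ⊆ A := fun t ht => by
      rcases Finset.mem_insert.1 (hT ht) with h | h
      · exact absurd (h ▸ ht) hb
      · exact h
    obtain ⟨a, ha, w, hw, hwT, haw⟩ := hS T (hTA.trans hAS') hTne ⟨b, hA.bS, hb⟩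
    refine ⟨a, ha, w, ?_, hwT, haw⟩
    rcases hA.nb a (hTA ha) w hw haw with h | h
    · exact Finset.mem_insert_of_mem h
    · exact h ▸ Finset.mem_insert_self b A
  refine ⟨A, b, hAS, hA.ne, hA.bS, hA.bA, hA.nb, h1, ?_, ?_⟩
  · intro w
    by_cases hw : w ∈ insert b A
    · rcases Finset.mem_insert.1 hw with rfl | hwA
      · -- `w = b`
        rw [Finset.erase_insert hA.bA]
        intro T hTA hTne hTc
        by_contra hno
        push Not at hno
        refine hmin T w hTA ⟨hTne, hA.bS, fun h => hA.bA (hTA h), ?_⟩ hTc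
        intro a ha c hc hac
        rcases hA.nb a (hTA ha) c hc hac with h | h
        · by_cases hcT : c ∈ T
          · exact Or.inl hcT
          · exact absurd hac (hno a ha c h hcT)
        · exact Or.inr h
      · have hwb : w ≠ b := fun h => hA.bA (h ▸ hwA)
        refine key _ fun T hT hTne hb _ => ?_
        by_contra hno
        push Not at hno
        have hTA : T ⊆ A := fun t ht => by
          rcases Finset.mem_insert.1 (Finset.mem_of_mem_erase (hT ht)) with h | h
          · exact absurd (h ▸ ht) hb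
          · exact h
        have hwT : w ∉ T := fun h => (Finset.mem_erase.1 (hT h)).1 rfl
        refine hmin T w hTA ⟨hTne, hAS' hwA, hwT, ?_⟩ ⟨w, hwA, hwT⟩
        intro a ha c hc hac
        by_cases hcT : c ∈ T
        · exact Or.inl hcT
        · by_cases hcw : c = w
          · exact Or.inr hcw
          · exfalso
            have hcB : c ∈ insert b A := by
              rcases hA.nb a (hTA ha) c hc hac with h | h
              · exact Finset.mem_insert_of_mem h
              · exact h ▸ Finset.mem_insert_self b A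
            exact hno a ha c (Finset.mem_erase.2 ⟨hcw, hcB⟩) hcT hac
    · rw [Finset.erase_eq_of_notMem hw]
      exact h1
  · refine key _ fun T hT hTne hb _ => ?_
    obtain ⟨a, ha, w, hw, hwT, haw⟩ := hS T (hT.trans Finset.sdiff_subset) hTne ⟨b, hA.bS, hb⟩
    refine ⟨a, ha, w, Finset.mem_sdiff.2 ⟨hw, ?_⟩, hwT, haw⟩
    intro hwA
    have haS := Finset.mem_sdiff.1 (hT ha)
    rcases hA.nb w hwA a haS.1 haw.symm with h | h
    · exact haS.2 h
    · exact hb (h ▸ ha)

end Pool.Agent.MP5ce328
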