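import Pool.Agent.Lib.MP_5ce328_co.CaseA
import Pool.Agent.Lib.MP_5ce328_co.Full.Defs

namespace Pool.Agent.MP5ce328

open Finset

variable {V : Type*} {G : SimpleGraph V}

/-- one good end -/
theorem LP.end_good [Fintype V] [DecidableRel G.Adj] {m k : ℕ} {x : ℕ → V} (C : LP G m x)
    (hG : G.Connected) {w0 h h' : V} (hh : Off m x h) (hh' : Off m x h') (b : G.Adj h' h)
    (hE : ∀ v, (EV G v).card ≤ k) (hd : ∀ v, v ≠ w0 → k ≤ G.degree v) (h3 : 3 ≤ G.degree w0) :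
    ∃ y : ℕ → V, LP G m y ∧ Same m x y ∧ y (m - 1) = x (m - 1) ∧ y 0 ≠ w0 ∧
      ∀ v, ¬ Off m x v → G.Adj h v → ¬ G.Adj (y 0) v := by
  classical
  -- first, an end which is not `w0`
  obtain ⟨y, Y, S, hy1, hy2⟩ : ∃ y : ℕ → V, LP G m y ∧ Same m x y ∧ y (m - 1) = x (m - 1) ∧
      y 0 ≠ w0 := by
    by_cases h0 : x 0 = w0
    · have hX : (W G m x (x 0)).card = G.degree (x 0) := card_W C _ (fun v a => C.first_on a)
      have h2 : ∃ i ∈ W G m x (x 0), 2 ≤ i := by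
        by_contra hc
        push Not at hc
        have h4 : W G m x (x 0) ⊆ {0, 1} := by
          intro i hi
          have := hc i hi
          rw [mem_insert, mem_singleton]
          omega
        have h5 := card_le_card h4
        have h6 : ({0, 1} : Finset ℕ).card ≤ 2 := card_le_two
        rw [hX, h0] at h5
        omega
      obtain ⟨i, hi, hi2⟩ := h2
      obtain ⟨y, Y, U, hy1, hy2⟩ := C.first_ne (mem_W.1 hi).1 hi2 (mem_W.1 hi).2
      exact ⟨y, Y, U, hy1, by rw [← h0]; exact hy2⟩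
    · exact ⟨x, C, fun v => Iff.rfl, rfl, h0⟩
  by_cases hne : (W G m y h).Nonempty
  · obtain ⟨z, Z, T, hz1, hz2, hz3⟩ := Y.far_first_ne hG (w0 := w0) (S.off hh) (S.off hh') b hne
      hE hd hy2
    refine ⟨z, Z, S.trans T, hz1.trans hy1, hz3, ?_⟩
    intro v _ ha hb
    exact hz2.2.2 v ha hb.symm
  · refine ⟨y, Y, S, hy1, hy2, ?_⟩
    intro v hv ha _
    apply hne
    unfold Off at hv
    push Not at hv
    obtain ⟨j, hj, hj'⟩ := (S v).1 hv
    exact ⟨j, mem_W.2 ⟨hj, by rw [hj']; exact ha⟩⟩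

/-- both ends are good -/
theorem LP.ends_good [Fintype V] [DecidableRel G.Adj] {m k : ℕ} {x : ℕ → V} (C : LP G m x)
    (hG : G.Connected) {w0 h h' : V} (hh : Off m x h) (hh' : Off m x h') (b : G.Adj h' h)
    (hE : ∀ v, (EV G v).card ≤ k) (hd : ∀ v, v ≠ w0 → k ≤ G.degree v) (h3 : 3 ≤ G.degree w0) :
    ∃ y : ℕ → V, LP G m y ∧ Same m x y ∧ y 0 ≠ w0 ∧ y (m - 1) ≠ w0 ∧
      (∀ v, ¬ Off m x v → G.Adj h v → ¬ G.Adj (y 0) v) ∧
      ∀ v, ¬ Off m x v → G.Adj h v → ¬ G.Adj (y (m - 1)) v := by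
  obtain ⟨y, Y, S, _, hy2, hy3⟩ := C.end_good hG hh hh' b hE hd h3
  have S2 : Same m x (fun i => y (m - 1 - i)) := S.trans (same_rev y)
  obtain ⟨z, Z, T, hz1, hz2, hz3⟩ := Y.rev.end_good hG (S2.off hh) (S2.off hh') b hE hd h3
  have e : z (m - 1) = y 0 := by rw [hz1]; simp
  refine ⟨z, Z, S2.trans T, hz2, by rw [e]; exact hy2, ?_, by rw [e]; exact hy3⟩
  intro v hv ha
  exact hz3 v (fun hc => hv (S2.symm.off hc)) ha

end Pool.Agent.MP5ce328
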