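import Pool.Agent.Lib.MP_5ce328_co.Full.Defs

namespace Pool.Agent.MP5ce328

open Finset

variable {V : Type*} {G : SimpleGraph V}

/-- a geodesic from a set to a vertex outside leaves the set through an edge -/
theorem leave44 (hG : G.Connected) (S : V → Prop) {g q : V} (hg : S g) (hq : ¬ S q) :
    ∃ a t, S a ∧ ¬ S t ∧ G.Adj a t ∧ G.dist g q = G.dist g a + 1 + G.dist t q := by
  have key : ∀ (u z : V) (c : G.Walk u z), c.length = G.dist u z → S u → ¬ S z →
      ∃ a t, S a ∧ ¬ S t ∧ G.Adj a t ∧ G.dist u z = G.dist u a + 1 + G.dist t z := by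
    intro u z c
    induction c with
    | nil => intro _ h1 h2; exact absurd h1 h2
    | @cons u v z b c ih =>
      intro h0 h1 h2
      rw [SimpleGraph.Walk.length_cons] at h0
      have h3 : G.dist v z ≤ c.length := SimpleGraph.dist_le c
      have h4 := hG.dist_triangle (u := u) (v := v) (w := z)
      have h5 : G.dist u v = 1 := SimpleGraph.dist_eq_one_iff_adj.2 b
      by_cases hv : S v
      · obtain ⟨a, t, ha, ht, hat, he⟩ := ih (by omega) hv h2
        refine ⟨a, t, ha, ht, hat, ?_⟩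
        have h6 := hG.dist_triangle (u := u) (v := v) (w := a)
        have h7 := hG.dist_triangle (u := u) (v := a) (w := z)
        have h8 := hG.dist_triangle (u := a) (v := t) (w := z)
        have h9 : G.dist a t = 1 := SimpleGraph.dist_eq_one_iff_adj.2 hat
        omega
      · refine ⟨u, v, h1, hv, b, ?_⟩
        rw [SimpleGraph.dist_self]
        omega
  obtain ⟨c, hc⟩ := hG.exists_walk_length_eq_dist g q
  exact key g q c hc hg hq

theorem exits [Fintype V] [DecidableEq V] (hG : G.Connected) (H A : Finset V) (b : V)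
    (hAH : A ⊆ H) (hbH : b ∈ H) (hbA : b ∉ A) (hA : ∀ a ∈ A, ∀ w ∈ H, G.Adj a w → w ∈ A ∨ w = b)
    (C : Finset V) {h : V} (hh : h ∈ A) (hhC : h ∉ C)
    (h1 : ∀ a ∈ A, ∀ t, t ∉ H → G.Adj a t → a ∈ C ∨ t ∈ C)
    (h2 : ∀ g ∈ H, g ∉ A → ∀ t, t ∉ H → G.Adj g t → b ∈ C ∨ t ∈ C) :
    ∀ q, q ∉ H → ∃ z ∈ C, z ≠ h ∧ G.dist h z + G.dist z q = G.dist h q := by
  intro q hq
  have tri : ∀ u v w, G.dist u w ≤ G.dist u v + G.dist v w := fun u v w => hG.dist_triangle
  have hd1 : ∀ {u v}, G.Adj u v → G.dist u v = 1 := fun b => SimpleGraph.dist_eq_one_iff_adj.2 b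
  obtain ⟨a, t, ha, ht, hat, he⟩ := leave44 hG (fun v => v ∈ A) hh (fun hc => hq (hAH hc))
  have e1 := hd1 hat
  have e2 := tri h a t
  by_cases htH : t ∈ H
  · have htb : t = b := (hA a ha t htH hat).resolve_left ht
    subst htb
    obtain ⟨g, s, hg, hs, hgs, he'⟩ := leave44 hG (fun v => v ∈ H) htH hq
    have e3 := hd1 hgs
    have f1 := tri h t g
    have f2 := tri h g q
    have f3 := tri g s q
    have f4 := tri h g s
    have f5 := tri h s q
    have f6 := tri h t q
    by_cases hgA : g ∈ A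
    · rcases h1 g hgA s hs hgs with hc | hc
      · exact ⟨g, hc, fun e => hhC (e ▸ hc), by omega⟩
      · exact ⟨s, hc, fun e => hs (e ▸ hAH hh), by omega⟩
    · rcases h2 g hg hgA s hs hgs with hc | hc
      · exact ⟨t, hc, fun e => hhC (e ▸ hc), by omega⟩
      · exact ⟨s, hc, fun e => hs (e ▸ hAH hh), by omega⟩
  · have f1 := tri h a q
    have f2 := tri a t q
    have f3 := tri h t q
    rcases h1 a ha t htH hat with hc | hc
    · exact ⟨a, hc, fun e => hhC (e ▸ hc), by omega⟩
    · exact ⟨t, hc, fun e => htH (e ▸ hAH hh), by omega⟩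

end Pool.Agent.MP5ce328
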