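import Pool.Agent.Lib.MP_5ce328_co.Full.Lower

namespace Pool.Agent.MP5ce328

open Finset

variable {V : Type*} {G : SimpleGraph V}

theorem f_mono58 {t c X k : ℕ} (h : t + c = k + 1) (h2 : 2 * X ≤ k + 1)
    (ht : t ≤ X ∨ k ≤ 2 * X) : t * c + X * X ≤ X * (k + 1) := by
  have hc : (c : ℤ) = k + 1 - t := by
    have : (t : ℤ) + c = k + 1 := by exact_mod_cast h
    linarith
  have key : (0 : ℤ) ≤ ((X : ℤ) - t) * ((k : ℤ) + 1 - X - t) := by
    rcases ht with ht | ht
    · have e1 : (t : ℤ) ≤ X := by exact_mod_cast ht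
      have e2 : 2 * (X : ℤ) ≤ k + 1 := by exact_mod_cast h2
      exact mul_nonneg (by linarith) (by linarith)
    · have e2 : 2 * (X : ℤ) ≤ k + 1 := by exact_mod_cast h2
      have e3 : (k : ℤ) ≤ 2 * X := by exact_mod_cast ht
      rcases le_or_gt (t : ℤ) X with h5 | h5
      · exact mul_nonneg (by linarith) (by linarith)
      · exact mul_nonneg_of_nonpos_of_nonpos (by linarith) (by linarith)
  have : (t : ℤ) * c + X * X ≤ X * (k + 1) := by
    rw [hc]
    nlinarith [key]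
  exact_mod_cast this

/-- **the contradiction** -/
theorem LP.final_core [Fintype V] [DecidableEq V] [DecidableRel G.Adj] {m k : ℕ} {x : ℕ → V}
    (C : LP G m x) (H : Finset V) (hH : ∀ v ∈ H, Off m x v) {h : V} (hh : h ∈ H)
    (hhW : ∀ v, G.Adj h v → v ∉ H → ∃ i < m, x i = v)
    {K X : ℕ} (hX : 1 ≤ X) (hXK : X ≤ K) (h2X : 2 * X ≤ k + 1)
    (P : Finset ℕ) (hP : P.card = X) (hPm : ∀ q ∈ P, q + 1 < m)
    (hGG : ∀ q ∈ P, ∀ q' ∈ P, q ≠ q' → Gp G m x K (x q) (x q'))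
    (hTT : ∀ q ∈ P, Tl G m x K (x q))
    (hRl : ∀ r ∈ W G m x h, ¬ G.Adj (x (m - 1)) (x r))
    (hRT : ∀ r ∈ W G m x h, Tl G m x K (x r))
    (hRG : ∀ r ∈ W G m x h, ∀ q ∈ P, q ≠ r → Gp G m x K (x q) (x r))
    (hd0 : k ≤ G.degree (x 0)) (hdl : k ≤ G.degree (x (m - 1)))
    (hdq : ∀ q ∈ P, (∃ q' ∈ P, q < q') → k ≤ G.degree (x (q + 1)))
    (hoff : ∀ q ∈ P, ∀ z, Off m x z → G.Adj (x (q + 1)) z → z ∉ H)
    (hcom : ∀ q ∈ P, ∀ q' ∈ P, q < q' → ∀ z, Off m x z → G.Adj (x (q + 1)) z →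
      G.Adj (x (q' + 1)) z → False)
    (hup : ∃ t c, t + c = k + 1 ∧ (t ≤ X ∨ k ≤ 2 * X) ∧
      (univ \ H).card ≤ ((G.neighborFinset h) \ H).card + k + t * c) : False := by
  have hne : P.Nonempty := card_pos.1 (by omega)
  set p := P.max' hne with hp
  have hpP : p ∈ P := max'_mem _ _
  have hlt : ∀ q ∈ P.erase p, q < p := by
    intro q hq
    rw [mem_erase] at hq
    exact lt_of_le_of_ne (le_max' _ _ hq.2) hq.1
  have hlow := C.lower (k := k) H hH hX hXK (P.erase p)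
    (by rw [card_erase_of_mem hpP]; omega)
    (fun q hq => hPm q (mem_of_mem_erase hq)) p (by have := hPm p hpP; omega) hlt (hTT p hpP)
    (fun q hq q' hq' hne' => hGG q (mem_of_mem_erase hq) q' (mem_of_mem_erase hq') hne')
    (fun q hq => hGG q (mem_of_mem_erase hq) p hpP (mem_erase.1 hq).1)
    (W G m x h)
    (by
      intro r hr
      have hr' := mem_W.1 hr
      by_contra hc
      have : r = m - 1 := by omega
      subst this
      exact C.not_last (hH h hh) hr'.2)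
    hRl hRT (fun r hr q hq hne' => hRG r hr q (mem_of_mem_erase hq) hne')
    hd0 hdl (fun q hq => hdq q (mem_of_mem_erase hq) ⟨p, hpP, hlt q hq⟩)
    (fun q hq => hoff q (mem_of_mem_erase hq))
    (fun q hq q' hq' => hcom q (mem_of_mem_erase hq) q' (mem_of_mem_erase hq'))
  obtain ⟨t, c, htc, ht, hup⟩ := hup
  have hN : ((G.neighborFinset h) \ H).card ≤ (W G m x h).card := by
    rw [← card_W_image C]
    refine card_le_card ?_
    intro v hv
    rw [mem_sdiff, SimpleGraph.mem_neighborFinset] at hv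
    obtain ⟨i, hi, rfl⟩ := hhW v hv.1 hv.2
    exact mem_image_of_mem _ (mem_W.2 ⟨hi, hv.1⟩)
  have hf := f_mono58 htc h2X ht
  have e1 : (X + 1) * k = X * k + k := by ring
  have e2 : X * (k + 1) = X * k + X := by ring
  omega

end Pool.Agent.MP5ce328
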