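import Pool.Agent.Lib.MP_5ce328_co.Full.Defs

namespace Pool.Agent.MP5ce328

open Finset

variable {V : Type*} {G : SimpleGraph V}

theorem LP.ext_inj58 {m : ℕ} {x : ℕ → V} (C : LP G m x) {e : List V} (he : e.Nodup)
    (hoff : ∀ v ∈ e, Off m x v) {i j : ℕ} (h1 : i < m + e.length) (h2 : j < m + e.length)
    (h : ext x m e i = ext x m e j) : i = j := by
  unfold ext at h
  split_ifs at h with h3 h4 h4
  · exact C.inj i h3 j h4 h
  · exfalso
    have h5 : j - m < e.length := by omega
    rw [List.getD_eq_getElem e _ h5] at h
    exact hoff _ (List.getElem_mem h5) i h3 h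
  · exfalso
    have h5 : i - m < e.length := by omega
    rw [List.getD_eq_getElem e _ h5] at h
    exact hoff _ (List.getElem_mem h5) j h4 h.symm
  · have h5 : j - m < e.length := by omega
    have h6 : i - m < e.length := by omega
    rw [List.getD_eq_getElem e _ h5, List.getD_eq_getElem e _ h6] at h
    have := (List.Nodup.getElem_inj_iff he).1 h
    omega

theorem getD_head_o58 {l : List V} {a : V} (h : l.head? = some a) (d : V) : l.getD 0 d = a := by
  cases l with
  | nil => simp at h
  | cons b l => simpa using h

theorem getD_last_o58 {l : List V} {a : V} (h : l.getLast? = some a) (d : V) :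
    l.getD (l.length - 1) d = a := by
  rw [List.getLast?_eq_getElem?] at h
  rw [List.getD_eq_getElem?_getD, h]
  rfl

theorem LP.no_common_off {m : ℕ} {x : ℕ → V} (C : LP G m x) {p q : ℕ} (hpq : p < q)
    (hq : q + 1 < m) {e : List V} {g g' : V} (he : IsP G e) (hoff : ∀ v ∈ e, Off m x v)
    (h1 : e.head? = some g) (h2 : e.getLast? = some g') (a1 : G.Adj g (x p)) (a2 : G.Adj g' (x q))
    {z : V} (hz : Off m x z) (hze : z ∉ e) (b1 : G.Adj (x (p + 1)) z)
    (b2 : G.Adj (x (q + 1)) z) : False := by
  have hpos : 1 ≤ e.length := by
    cases e with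
    | nil => simp at h1
    | cons b l => simp
  have hnd : (e ++ [z]).Nodup := by
    rw [List.nodup_append]
    refine ⟨he.1, by simp, ?_⟩
    intro a ha b hb
    rw [List.mem_singleton] at hb
    rintro rfl
    exact hze (hb ▸ ha)
  have hoff' : ∀ v ∈ e ++ [z], Off m x v := by
    intro v hv
    rw [List.mem_append, List.mem_singleton] at hv
    rcases hv with hv | rfl
    · exact hoff v hv
    · exact hz
  have hlen : (e ++ [z]).length = e.length + 1 := by simp
  have e0 : ∀ j < e.length, ext x m (e ++ [z]) (m + j) = e.getD j (x 0) := by
    intro j hj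
    rw [ext_ge, List.getD_eq_getElem _ _ (by omega), List.getD_eq_getElem _ _ hj,
      List.getElem_append_left hj]
  have ez : ext x m (e ++ [z]) (m + e.length) = z := by
    rw [ext_ge, List.getD_eq_getElem _ _ (by omega), List.getElem_append_right (le_refl _)]
    simp
  have em : ext x m (e ++ [z]) m = g := by
    have := e0 0 (by omega)
    rw [Nat.add_zero] at this
    rw [this, getD_head_o58 h1]
  have el : ext x m (e ++ [z]) (m + (e.length - 1)) = g' := by
    rw [e0 _ (by omega), getD_last_o58 h2]
  have ex : ∀ i < m, ext x m (e ++ [z]) i = x i := fun i hi => ext_lt hi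
  have key : IsP G ((cat [(0, p), (m, m + (e.length - 1)), (q, p + 1), (m + e.length, m + e.length),
      (q + 1, m - 1)]).map (ext x m (e ++ [z]))) := by
    refine route _ _ ?_ ?_ ?_ ?_
    · intro i hi j hj h
      have hb : ∀ i ∈ cat [(0, p), (m, m + (e.length - 1)), (q, p + 1),
          (m + e.length, m + e.length), (q + 1, m - 1)], i < m + (e ++ [z]).length := by
        intro i hi
        rw [mem_cat] at hi
        simp only [List.mem_cons, List.not_mem_nil, or_false, exists_eq_or_imp, exists_eq_left,
          mem_seg] at hi
        omega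
      exact C.ext_inj58 hnd hoff' (hb i hi) (hb j hj) h
    · intro s hs i hi
      simp only [List.mem_cons, List.not_mem_nil, or_false] at hs
      by_cases him : i + 1 < m
      · rw [ext_lt (by omega), ext_lt (by omega)]
        exact C.adj i him
      · rcases hs with rfl | rfl | rfl | rfl | rfl
        · simp only at hi; omega
        · simp only at hi
          obtain ⟨j, rfl⟩ : ∃ j, i = m + j := ⟨i - m, by omega⟩
          rw [show m + j + 1 = m + (j + 1) by ring, e0 j (by omega), e0 (j + 1) (by omega),
            List.getD_eq_getElem _ _ (by omega), List.getD_eq_getElem _ _ (by omega)]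
          exact List.isChain_iff_getElem.1 he.2 j (by omega)
        · simp only at hi; omega
        · simp only at hi; omega
        · simp only at hi; omega
    · simp [Dis]; omega
    · simp only [List.isChain_cons_cons, List.isChain_singleton, and_true]
      refine ⟨?_, ?_, ?_, ?_⟩
      · rw [em, ex p (by omega)]
        exact a1.symm
      · rw [el, ex q (by omega)]
        exact a2
      · rw [ez, ex (p + 1) (by omega)]
        exact b1
      · rw [ez, ex (q + 1) (by omega)]
        exact b2.symm
  have h5 := C.max _ key
  rw [List.length_map, length_cat] at h5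
  simp [len] at h5
  omega

end Pool.Agent.MP5ce328
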