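import Pool.Agent.Lib.MP_5ce328_co.Full.Struct
import Pool.Agent.Lib.MP_5ce328_co.Full.EndsA
import Pool.Agent.Lib.MP_5ce328_co.Full.FinalCore
import Pool.Agent.Lib.MP_5ce328_co.Full.MvO

namespace Pool.Agent.MP5ce328

open Finset

variable {V : Type*} {G : SimpleGraph V}

theorem getD_head58 {l : List V} {a : V} (h : l.head? = some a) (d : V) : l.getD 0 d = a := by
  cases l with
  | nil => simp at h
  | cons b l => simpa using h

theorem getD_last58 {l : List V} {a : V} (h : l.getLast? = some a) (d : V) :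
    l.getD (l.length - 1) d = a := by
  rw [List.getLast?_eq_getElem?] at h
  rw [List.getD_eq_getElem?_getD, h]
  rfl

theorem pos_of_head58 {l : List V} {a : V} (h : l.head? = some a) : 1 ≤ l.length := by
  cases l with
  | nil => simp at h
  | cons b l => simp

theorem mem_head58 {l : List V} {a : V} (h : l.head? = some a) : a ∈ l := List.mem_of_mem_head? h

/-- **case A** -/
theorem LP.caseA_full [Fintype V] [DecidableRel G.Adj] {m k : ℕ} {x : ℕ → V}
    (C : LP G m x) (hG : G.Connected) (hk : 1 ≤ k) (w0 : V)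
    (hd : ∀ v, v ≠ w0 → k ≤ G.degree v) (hE : ∀ v, (EV G v).card ≤ k) (h3 : 3 ≤ G.degree w0)
    (ho : ∃ h, Off m x h ∧ h ≠ w0) : False := by
  classical
  obtain ⟨H, h, h', X, T, hHoff, hHcl, hHc, hhH, hh'H, hh', hX1, h2X, hTc, hTon, hTT, hTt, hRt,
    hRT, hup⟩ := C.struct hG hk w0 hd hE h3 ho
  obtain ⟨y, Y, S, hy0, hyl, hg0, hgl⟩ := C.ends_good hG (hHoff h hhH) (hHoff h' hh'H) hh' hE hd h3
  have core : ∀ z : ℕ → V, LP G m z → Same m x z → z 0 ≠ w0 → z (m - 1) ≠ w0 →
      (∀ v, ¬ Off m x v → G.Adj h v → ¬ G.Adj (z (m - 1)) v) →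
      (∀ q < m, z q ∈ T → (∃ q' < m, z q' ∈ T ∧ q < q') → z (q + 1) ≠ w0) → False := by
    intro z Z S hz0 hzl hgl hlab
    have hOn : ∀ i < m, ¬ Off m x (z i) := by
      intro i hi hc
      exact S.off hc i hi rfl
    have hInt : ∀ {e : List V} {g g' : V}, PathIn G H g g' e → X ≤ e.length → Ins G m z X e := by
      intro e g g' he hlen
      refine ⟨he.isP, fun v hv => S.off (hHoff v (he.mem v hv)), pos_of_head58 he.hd, ?_⟩
      intro l hl _
      have := Z.max l hl
      omega
    have hPc : ((range m).filter (fun q => z q ∈ T)).card = X := by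
      rw [← hTc]
      have h1 : ((range m).filter (fun q => z q ∈ T)).image z = T := by
        ext v
        rw [mem_image]
        constructor
        · rintro ⟨i, hi, rfl⟩
          exact (mem_filter.1 hi).2
        · intro hv
          have h2 := hTon v hv
          unfold Off at h2
          push Not at h2
          obtain ⟨i, hi, hi'⟩ := (S v).1 h2
          exact ⟨i, mem_filter.2 ⟨mem_range.2 hi, by rw [hi']; exact hv⟩, hi'⟩
      have h5 : (((range m).filter (fun q => z q ∈ T)).image z).card =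
          ((range m).filter (fun q => z q ∈ T)).card := by
        refine card_image_of_injOn ?_
        intro i hi j hj he
        rw [mem_coe, mem_filter, mem_range] at hi hj
        exact Z.inj i hi.1 j hj.1 he
      rw [h1] at h5
      exact h5.symm
    have memP : ∀ q, q ∈ (range m).filter (fun q => z q ∈ T) ↔ q < m ∧ z q ∈ T := by
      intro q
      rw [mem_filter, mem_range]
    have hPm : ∀ q ∈ (range m).filter (fun q => z q ∈ T), q + 1 < m := by
      intro q hq
      rw [memP] at hq
      obtain ⟨e, g, g', e1, _, e3⟩ := hTt _ hq.2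
      by_contra hc
      have : q = m - 1 := by omega
      subst this
      exact Z.not_last (S.off (hHoff g (e1.mem g (mem_head58 e1.hd)))) e3
    have hoff : ∀ q ∈ (range m).filter (fun q => z q ∈ T), ∀ u, Off m z u →
        G.Adj (z (q + 1)) u → u ∉ H := by
      intro q hq u hu hau huH
      have hqm := hPm q hq
      rw [memP] at hq
      obtain ⟨e, g, g', e1, _, e3⟩ := hTt _ hq.2
      obtain ⟨l, hl⟩ := pathIn_of_cn hHc (e1.mem g (mem_head58 e1.hd)) huH
      exact Z.not_insert hl.isP (fun v hv => S.off (hHoff v (hl.mem v hv))) (pos_of_head58 hl.hd)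
        (getD_head58 hl.hd _) (getD_last58 hl.lst _) hqm e3 hau.symm
    refine Z.final_core (k := k) (K := X) H (fun v hv => S.off (hHoff v hv)) hhH ?_ hX1 le_rfl h2X
      ((range m).filter (fun q => z q ∈ T)) hPc hPm ?_ ?_ ?_ ?_ ?_ (hd _ hz0) (hd _ hzl) ?_
      hoff ?_ hup
    · intro v hv hvH
      by_contra hc
      push Not at hc
      exact hvH (hHcl h hhH v (S.symm.off hc) hv)
    · intro q hq q' hq' hne
      rw [memP] at hq hq'
      obtain ⟨e, g, g', e1, e2, e3, e4⟩ := hTT _ hq.2 _ hq'.2
        (fun he => hne (Z.inj q hq.1 q' hq'.1 he))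
      exact ⟨e, g, g', hInt e1 e2, e1.hd, e1.lst, e3, e4⟩
    · intro q hq
      rw [memP] at hq
      obtain ⟨e, g, g', e1, e2, e3⟩ := hTt _ hq.2
      exact ⟨e, g, hInt e1 e2, e1.hd, e3⟩
    · intro r hr
      have hr' := mem_W.1 hr
      exact hgl _ (hOn r hr'.1) hr'.2
    · intro r hr
      have hr' := mem_W.1 hr
      obtain ⟨e, g, g', e1, e2, e3⟩ := hRt _ (hOn r hr'.1) hr'.2
      exact ⟨e, g, hInt e1 e2, e1.hd, e3⟩
    · intro r hr q hq hne
      have hr' := mem_W.1 hr
      rw [memP] at hq
      obtain ⟨e, g, g', e1, e2, e3, e4⟩ := hRT _ (hOn r hr'.1) hr'.2 _ hq.2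
        (fun he => hne (Z.inj q hq.1 r hr'.1 he))
      exact ⟨e, g, g', hInt e1 e2, e1.hd, e1.lst, e3, e4⟩
    · intro q hq hex
      obtain ⟨q', hq', hlt⟩ := hex
      rw [memP] at hq hq'
      exact hd _ (hlab q hq.1 hq.2 ⟨q', hq'.1, hq'.2, hlt⟩)
    · intro q hq q' hq' hlt u hu a1 a2
      have hu' := hoff q hq u hu a1
      have hqm' := hPm q' hq'
      rw [memP] at hq hq'
      obtain ⟨e, g, g', e1, e2, e3, e4⟩ := hTT _ hq.2 _ hq'.2
        (fun he => by have := Z.inj q hq.1 q' hq'.1 he; omega)
      exact Z.no_common_off hlt hqm' e1.isP (fun v hv => S.off (hHoff v (e1.mem v hv))) e1.hd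
        e1.lst e3 e4 hu (fun hc => hu' (e1.mem _ hc)) a1 a2
  by_cases hbad : ∀ q < m, y q ∈ T → (∃ q' < m, y q' ∈ T ∧ q < q') → y (q + 1) ≠ w0
  · exact core y Y S hy0 hyl hgl hbad
  · push Not at hbad
    obtain ⟨q0, hq0, hq0T, ⟨q1, hq1, hq1T, hlt⟩, hq0w⟩ := hbad
    have hm := Y.pos
    refine core _ Y.rev (S.trans (same_rev y)) (by simpa using hyl) (by simpa using hy0)
      (by simpa using hg0) ?_
    intro q hq hqT _ hqw
    try dsimp only at hqT hqw
    -- two ports at distance two
    have e1 := Y.inj (m - 1 - (q + 1)) (by omega) (q0 + 1) (by omega) (hqw.trans hq0w.symm)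
    have e2 : m - 1 - q = q0 + 2 := by omega
    rw [e2] at hqT
    obtain ⟨e, g, g', f1, f2, f3, f4⟩ := hTT _ hq0T _ hqT (fun he => by
      have := Y.inj q0 hq0 (q0 + 2) (by omega) he
      omega)
    have hX2 : 2 ≤ X := by
      rw [← hTc]
      have : ({y q0, y q1} : Finset V) ⊆ T := by
        intro v hv
        rw [mem_insert, mem_singleton] at hv
        rcases hv with rfl | rfl
        · exact hq0T
        · exact hq1T
      have h4 := card_le_card this
      rw [card_pair (fun he => by
        have := Y.inj q0 hq0 q1 hq1 he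
        omega)] at h4
      exact h4
    have := Y.count e f1.isP (fun v hv => S.off (hHoff v (f1.mem v hv)))
      [(0, q0), (m, m + (e.length - 1)), (q0 + 2, m - 1)]
      (by simp; omega) (by simp [Dis]; omega)
      (by simp only [List.isChain_cons_cons, List.isChain_singleton, and_true]
          refine ⟨?_, ?_⟩
          · rw [ext_m, ext_lt (by omega), getD_head58 f1.hd]; exact f3.symm
          · rw [ext_ge, ext_lt (by omega), getD_last58 f1.lst]; exact f4)
    simp [len] at this
    omega

end Pool.Agent.MP5ce328
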