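import Pool.Agent.Lib.MP_5ce328_co.Full.Defs
import Pool.Agent.Lib.MP_5ce328_co.BR_21

/-!
# Upper bound (module UP, helper44)

The vertices outside `H`, seen from a vertex `h` of `H`, if every geodesic from `h` to the outside
meets `C`.
-/

namespace Pool.Agent.MP5ce328

open Finset

variable {V : Type*} {G : SimpleGraph V}

theorem upper [Fintype V] [DecidableEq V] [DecidableRel G.Adj] (hG : G.Connected) {k : ℕ}
    (hE : ∀ v, (EV G v).card ≤ k) (H : Finset V) {h : V} (hh : h ∈ H) (C : Finset V)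
    (hC : ∀ q, q ∉ H → ∃ z ∈ C, z ≠ h ∧ G.dist h z + G.dist z q = G.dist h q) :
    ∃ t c, t ≤ C.card ∧ t + c = k + 1 ∧
      (univ \ H).card ≤ ((G.neighborFinset h) \ H).card + k + t * c := by
  obtain ⟨s, hs⟩ : ∃ s, s = h := ⟨h, rfl⟩
  subst hs
  let O : Finset V := univ.filter (fun x => x ∉ H ∧ ¬ G.Adj s x ∧ ¬ Even (G.dist s x))
  let X : V → Finset V := fun u => O.filter (fun x => G.dist u x + 1 = G.dist s x)
  have hO' : ∀ x, x ∈ O ↔ x ∉ H ∧ ¬ G.Adj s x ∧ ¬ Even (G.dist s x) := fun x => by simp [O]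
  have hO : ∀ x, x ∈ O → x ≠ s ∧ ¬ G.Adj s x ∧ ¬ Even (G.dist s x) := fun x hx => by
    have h1 := (hO' x).1 hx
    exact ⟨fun e => h1.1 (e ▸ hh), h1.2⟩
  have hX : ∀ u x, x ∈ X u ↔ x ∈ O ∧ G.dist u x + 1 = G.dist s x := fun u x => by simp [X]
  have hO3 : ∀ x ∈ O, 3 ≤ G.dist s x := by
    intro x hx
    obtain ⟨h1, h2, h3⟩ := hO x hx
    have h5 : G.dist s x ≠ 0 := fun h => h3 (by rw [h]; exact ⟨0, rfl⟩)
    have h6 : G.dist s x ≠ 1 := fun h => h2 (SimpleGraph.dist_eq_one_iff_adj.1 h)
    have h7 : G.dist s x ≠ 2 := fun h => h3 (by rw [h]; exact ⟨1, rfl⟩)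
    omega
  -- the cover given by `C`
  have hu0 : ∀ z, z ≠ s → ∃ u, G.Adj s u ∧ G.dist u z + 1 = G.dist s z :=
    fun z hz => br_next hG (Ne.symm hz)
  choose! f hf1 hf2 using hu0
  have hcov0 : O ⊆ ((C.erase s).image f).biUnion X := by
    intro x hx
    obtain ⟨z, hz, hzs, hzx⟩ := hC x ((hO' x).1 hx).1
    rw [mem_biUnion]
    refine ⟨f z, mem_image_of_mem _ (mem_erase.2 ⟨hzs, hz⟩), (hX _ _).2 ⟨hx, ?_⟩⟩
    have t1 := hG.dist_triangle (u := f z) (v := z) (w := x)
    have t2 := hG.dist_triangle (u := s) (v := f z) (w := x)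
    have t3 := hf2 z hzs
    have t4 : G.dist s (f z) = 1 := SimpleGraph.dist_eq_one_iff_adj.2 (hf1 z hzs)
    omega
  have hsub0 : (C.erase s).image f ⊆ G.neighborFinset s := by
    intro u hu
    rw [mem_image] at hu
    obtain ⟨z, hz, rfl⟩ := hu
    exact (SimpleGraph.mem_neighborFinset _ _ _).2 (hf1 z (mem_erase.1 hz).1)
  have hcard0 : ((C.erase s).image f).card ≤ C.card :=
    card_image_le.trans (card_le_card (erase_subset _ _))
  -- a cover of least cardinality
  obtain ⟨U, hUmem, hUmin⟩ := exists_min_image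
    ((G.neighborFinset s).powerset.filter (fun U => O ⊆ U.biUnion X)) card
    ⟨(C.erase s).image f, by
      rw [mem_filter, mem_powerset]; exact ⟨hsub0, hcov0⟩⟩
  rw [mem_filter, mem_powerset] at hUmem
  obtain ⟨hUN, hUcov⟩ := hUmem
  have hUC : U.card ≤ C.card := (hUmin _ (by
    rw [mem_filter, mem_powerset]; exact ⟨hsub0, hcov0⟩)).trans hcard0
  have hUs : ∀ u ∈ U, G.Adj s u := fun u hu => (SimpleGraph.mem_neighborFinset _ _ _).1 (hUN hu)
  have hpriv : ∀ u ∈ U, ∃ q ∈ X u, ∀ u' ∈ U, u' ≠ u → q ∉ X u' := by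
    intro u hu
    by_contra hcon
    push Not at hcon
    have h1 : U.erase u ∈ (G.neighborFinset s).powerset.filter (fun U => O ⊆ U.biUnion X) := by
      rw [mem_filter, mem_powerset]
      refine ⟨(erase_subset _ _).trans hUN, ?_⟩
      intro x hx
      have h2 := hUcov hx
      rw [mem_biUnion] at h2
      obtain ⟨v, hv, hv2⟩ := h2
      rw [mem_biUnion]
      by_cases hvu : v = u
      · subst hvu
        obtain ⟨u', hu', hne, hm⟩ := hcon x hv2
        exact ⟨u', mem_erase.2 ⟨hne, hu'⟩, hm⟩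
      · exact ⟨v, mem_erase.2 ⟨hvu, hv⟩, hv2⟩
    have h3 := hUmin _ h1
    rw [card_erase_of_mem hu] at h3
    have h4 : 0 < U.card := card_pos.2 ⟨u, hu⟩
    omega
  have hy : ∀ u ∈ U, ∃ y, G.Adj u y ∧ G.dist s y = 2 ∧ ∀ u' ∈ U, u' ≠ u → ¬ G.Adj u' y := by
    intro u hu
    obtain ⟨q, hq, hqp⟩ := hpriv u hu
    rw [hX] at hq
    obtain ⟨hqO, hqd⟩ := hq
    have h3 := hO3 q hqO
    have hne : u ≠ q := by
      rintro rfl
      rw [SimpleGraph.dist_self] at hqd
      omega
    obtain ⟨y, hy1, hy2⟩ := br_next hG hne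
    have hsu : G.dist s u = 1 := SimpleGraph.dist_eq_one_iff_adj.2 (hUs u hu)
    have huy : G.dist u y = 1 := SimpleGraph.dist_eq_one_iff_adj.2 hy1
    have t1 := hG.dist_triangle (u := s) (v := u) (w := y)
    have t2 := hG.dist_triangle (u := s) (v := y) (w := q)
    refine ⟨y, hy1, by omega, ?_⟩
    intro u' hu' hne' hadj
    apply hqp u' hu' hne'
    rw [hX]
    refine ⟨hqO, ?_⟩
    have h5 : G.dist u' y = 1 := SimpleGraph.dist_eq_one_iff_adj.2 hadj
    have h6 : G.dist s u' = 1 := SimpleGraph.dist_eq_one_iff_adj.2 (hUs u' hu')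
    have t3 := hG.dist_triangle (u := u') (v := y) (w := q)
    have t4 := hG.dist_triangle (u := s) (v := u') (w := q)
    omega
  choose! y hy1 hy2 hy3 using hy
  have hbound : ∀ u' ∈ U, (X u').card + (U.card - 1) ≤ k := by
    intro u' hu'
    let a : V → V := fun u => if G.Adj u u' then y u else u
    have hsu' : G.dist s u' = 1 := SimpleGraph.dist_eq_one_iff_adj.2 (hUs u' hu')
    have ha1 : ∀ u ∈ U.erase u', a u ∈ EV G u' ∧ G.dist s (a u) ≤ 2 := by
      intro u hu
      rw [mem_erase] at hu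
      obtain ⟨hne, hu⟩ := hu
      have hsu : G.dist s u = 1 := SimpleGraph.dist_eq_one_iff_adj.2 (hUs u hu)
      simp only [a]
      by_cases h : G.Adj u u'
      · rw [if_pos h]
        have hyne : y u ≠ u' := by
          intro he
          have := hy2 u hu
          rw [he] at this
          omega
        have hd : G.dist u' (y u) = 2 :=
          dist_eq_two hG hyne (hy3 u hu u' hu' (Ne.symm hne)) ⟨u, h.symm, hy1 u hu⟩
        refine ⟨mem_EV.2 ⟨hyne, ?_⟩, (hy2 u hu).le⟩
        rw [hd]; exact ⟨1, rfl⟩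
      · rw [if_neg h]
        have hd : G.dist u' u = 2 :=
          dist_eq_two hG hne (fun hh => h hh.symm) ⟨s, (hUs u' hu').symm, hUs u hu⟩
        refine ⟨mem_EV.2 ⟨hne, ?_⟩, by omega⟩
        rw [hd]; exact ⟨1, rfl⟩
    have hinj : Set.InjOn a (U.erase u' : Finset V) := by
      intro u hu v hv he
      rw [mem_coe, mem_erase] at hu hv
      have hsu : G.dist s u = 1 := SimpleGraph.dist_eq_one_iff_adj.2 (hUs u hu.2)
      have hsv : G.dist s v = 1 := SimpleGraph.dist_eq_one_iff_adj.2 (hUs v hv.2)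
      simp only [a] at he
      by_cases h1 : G.Adj u u' <;> by_cases h2 : G.Adj v u'
      · rw [if_pos h1, if_pos h2] at he
        by_contra hne
        apply hy3 v hv.2 u hu.2 hne
        rw [← he]
        exact hy1 u hu.2
      · rw [if_pos h1, if_neg h2] at he
        have := hy2 u hu.2
        rw [he] at this
        omega
      · rw [if_neg h1, if_pos h2] at he
        have := hy2 v hv.2
        rw [← he] at this
        omega
      · rw [if_neg h1, if_neg h2] at he
        exact he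
    have hXE : X u' ⊆ EV G u' := by
      intro x hx
      rw [hX] at hx
      obtain ⟨hxO, hxd⟩ := hx
      have h3 := hO3 x hxO
      have h4 := (hO x hxO).2.2
      rw [mem_EV]
      refine ⟨?_, ?_⟩
      · rintro rfl
        omega
      · rw [← hxd] at h4
        rw [Nat.not_even_iff_odd] at h4
        by_contra h5
        rw [Nat.not_even_iff_odd] at h5
        exact (Nat.not_even_iff_odd.2 h4) (h5.add_one)
    have hdisj : Disjoint (X u') ((U.erase u').image a) := by
      rw [disjoint_left]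
      intro x hx hx2
      rw [mem_image] at hx2
      obtain ⟨u, hu, rfl⟩ := hx2
      have h1 := (ha1 u hu).2
      have h2 := hO3 _ ((hX _ _).1 hx).1
      omega
    have hsub : X u' ∪ (U.erase u').image a ⊆ EV G u' := by
      refine union_subset hXE ?_
      intro x hx
      rw [mem_image] at hx
      obtain ⟨u, hu, rfl⟩ := hx
      exact (ha1 u hu).1
    have hc := card_le_card hsub
    rw [card_union_of_disjoint hdisj, card_image_of_injOn hinj, card_erase_of_mem hu'] at hc
    exact hc.trans (hE u')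
  have hUk : U.card ≤ k + 1 := by
    rcases Finset.eq_empty_or_nonempty U with h0 | ⟨u0, hu0⟩
    · rw [h0, card_empty]; omega
    · have := hbound u0 hu0
      omega
  have hOcard : O.card ≤ U.card * (k + 1 - U.card) := by
    refine (card_le_card hUcov).trans (card_biUnion_le_card_mul _ _ _ ?_)
    intro u hu
    have h1 := hbound u hu
    have h2 : 0 < U.card := card_pos.2 ⟨u, hu⟩
    omega
  have huniv : (univ \ H : Finset V) ⊆ ((G.neighborFinset s) \ H) ∪ (EV G s ∪ O) := by
    intro x hx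
    rw [mem_sdiff] at hx
    rw [mem_union, mem_sdiff, SimpleGraph.mem_neighborFinset, mem_union, mem_EV, hO']
    by_cases h2 : G.Adj s x
    · exact Or.inl ⟨h2, hx.2⟩
    by_cases h3 : Even (G.dist s x)
    · exact Or.inr (Or.inl ⟨fun e => hx.2 (e ▸ hh), h3⟩)
    · exact Or.inr (Or.inr ⟨hx.2, h2, h3⟩)
  have h1 := card_le_card huniv
  have h2 := card_union_le ((G.neighborFinset s) \ H) (EV G s ∪ O)
  have h3 := card_union_le (EV G s) O
  have h5 := hE s
  exact ⟨U.card, k + 1 - U.card, hUC, by omega, by omega⟩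

end Pool.Agent.MP5ce328
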