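import Pool.Agent.Lib.MP_5ce328_co.Full.LDens

/-!
A longest path through `w0` leaves out at least `(k + 1) / 2` vertices (helper67).
-/

namespace Pool.Agent.MP5ce328

open Finset

variable {V : Type*} {G : SimpleGraph V}

/-- the new path built from pieces of a path and of a path off it -/
theorem build67 {m : ℕ} {x : ℕ → V} (inj : ∀ i < m, ∀ j < m, x i = x j → i = j)
    (adj : ∀ i, i + 1 < m → G.Adj (x i) (x (i + 1))) (e : List V) (he : IsP G e)
    (hoff : ∀ v ∈ e, Off m x v) (L : List (ℕ × ℕ))
    (hL : ∀ s ∈ L, (s.1 < m ∧ s.2 < m) ∨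
      (m ≤ s.1 ∧ m ≤ s.2 ∧ s.1 < m + e.length ∧ s.2 < m + e.length))
    (hdis : L.Pairwise Dis)
    (hj : L.IsChain (fun s t => G.Adj (ext x m e s.2) (ext x m e t.1))) :
    IsP G ((cat L).map (ext x m e)) := by
  refine route (ext x m e) L ?_ ?_ hdis hj
  · have key : ∀ i ∈ cat L, i < m + e.length := by
      intro i hi
      obtain ⟨s, hs, his⟩ := mem_cat.1 hi
      rw [mem_seg] at his
      have := hL s hs
      omega
    intro i hi j hj' h
    have h1 := key i hi
    have h2 := key j hj'
    unfold ext at h
    split_ifs at h with h3 h4 h4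
    · exact inj i h3 j h4 h
    · exfalso
      have h5 : j - m < e.length := by omega
      rw [List.getD_eq_getElem e _ h5] at h
      exact hoff _ (List.getElem_mem h5) i h3 h
    · exfalso
      have h5 : i - m < e.length := by omega
      rw [List.getD_eq_getElem e _ h5] at h
      exact hoff _ (List.getElem_mem h5) j h4 h.symm
    · have h5 : j - m < e.length := by omega
      have h6 : i - m < e.length := by omega
      rw [List.getD_eq_getElem e _ h5, List.getD_eq_getElem e _ h6] at h
      have := (List.Nodup.getElem_inj_iff he.1).1 h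
      omega
  · intro s hs i hi
    have := hL s hs
    rcases this with h | h
    · rw [ext_lt (by omega), ext_lt (by omega)]
      exact adj i (by omega)
    · have h5 : i - m + 1 < e.length := by omega
      have e1 : ext x m e i = e[i - m] := by
        unfold ext
        rw [if_neg (by omega), List.getD_eq_getElem e _ (by omega)]
      have e2 : ext x m e (i + 1) = e[i - m + 1] := by
        unfold ext
        rw [if_neg (by omega), List.getD_eq_getElem e _ (by omega)]
        congr 1; omega
      rw [e1, e2]
      exact List.isChain_iff_getElem.1 he.2 (i - m) h5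

theorem LW.count67 {w : V} {m : ℕ} {x : ℕ → V} (C : LW G w m x) (e : List V) (he : IsP G e)
    (hoff : ∀ v ∈ e, Off m x v) (L : List (ℕ × ℕ))
    (hL : ∀ s ∈ L, (s.1 < m ∧ s.2 < m) ∨
      (m ≤ s.1 ∧ m ≤ s.2 ∧ s.1 < m + e.length ∧ s.2 < m + e.length))
    (hdis : L.Pairwise Dis)
    (hj : L.IsChain (fun s t => G.Adj (ext x m e s.2) (ext x m e t.1)))
    {p : ℕ} (hp : p < m) (hxp : x p = w)
    (hw : ∃ s ∈ L, (s.1 ≤ p ∧ p ≤ s.2) ∨ (s.2 ≤ p ∧ p ≤ s.1)) :
    (L.map len).sum ≤ m := by
  have := C.max _ (build67 C.inj C.adj e he hoff L hL hdis hj) (by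
    rw [List.mem_map]
    obtain ⟨s, hs, h⟩ := hw
    exact ⟨p, mem_cat.2 ⟨s, hs, mem_seg.2 h⟩, by rw [ext_lt hp]; exact hxp⟩)
  rwa [List.length_map, length_cat] at this

theorem card_NO67 [Fintype V] [DecidableRel G.Adj] {m : ℕ} {x : ℕ → V} {u : V}
    (hu : Off m x u) : G.degree u + 1 ≤ (NO G m x u).card + (W G m x u).card := by
  classical
  have h1 : insert u (G.neighborFinset u) ⊆ NO G m x u ∪ (W G m x u).image x := by
    intro v hv
    rw [mem_insert, SimpleGraph.mem_neighborFinset] at hv
    rw [mem_union, mem_NO, mem_image]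
    by_cases ho : Off m x v
    · exact Or.inl ⟨hv, ho⟩
    · right
      unfold Off at ho
      push Not at ho
      obtain ⟨i, hi, rfl⟩ := ho
      rcases hv with hv | hv
      · exact absurd hv (hu i hi)
      · exact ⟨i, mem_W.2 ⟨hi, hv⟩, rfl⟩
  have h2 := card_le_card h1
  rw [card_insert_of_notMem (by rw [SimpleGraph.mem_neighborFinset]; exact G.irrefl),
    SimpleGraph.card_neighborFinset_eq_degree] at h2
  have h3 := card_union_le (NO G m x u) ((W G m x u).image x)
  have h4 := card_image_le (s := W G m x u) (f := x)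
  omega

theorem off_card67 [Fintype V] {m : ℕ} {x : ℕ → V} (inj : ∀ i < m, ∀ j < m, x i = x j → i = j)
    (T : Finset V) (hT : ∀ v ∈ T, Off m x v) : m + T.card ≤ Fintype.card V := by
  classical
  have h1 : ((range m).image x).card = m := by
    rw [card_image_of_injOn, card_range]
    intro i hi j hj h
    simp only [coe_range, Set.mem_Iio] at hi hj
    exact inj i hi j hj h
  have h2 : Disjoint ((range m).image x) T := by
    rw [disjoint_left]
    intro v hv hv'
    rw [mem_image] at hv
    obtain ⟨i, hi, rfl⟩ := hv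
    exact hT _ hv' i (mem_range.1 hi) rfl
  have h3 := card_le_univ ((range m).image x ∪ T)
  rw [card_union_of_disjoint h2, h1] at h3
  exact h3

theorem lemma1_gen67 [Fintype V] [DecidableEq V] {m : ℕ} {x : ℕ → V}
    (inj : ∀ i < m, ∀ j < m, x i = x j → i = j)
    (adj : ∀ i, i + 1 < m → G.Adj (x i) (x (i + 1))) {h : V} (hh : Off m x h)
    (h0 : ∀ i ∈ W G m x h, 1 ≤ i ∧ i + 1 < m)
    (h1 : ∀ i, i + 1 < m → G.Adj h (x i) → G.Adj h (x (i + 1)) → False)
    (hne : (W G m x h).Nonempty) : (W G m x h).card + 1 ≤ (N2 G h).card := by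
  set A := W G m x h with hA
  have hA' : ∀ i, i ∈ A ↔ i < m ∧ G.Adj h (x i) := fun i => mem_W
  set i0 := A.min' hne with hi0
  have hi : i0 ∈ A := min'_mem _ _
  have hmin : ∀ j ∈ A, i0 ≤ j := fun j hj => min'_le _ _ hj
  have hi1 := h0 i0 hi
  have hn : i0 - 1 ∉ A.image (· + 1) := by
    intro hc
    obtain ⟨j, hj, he⟩ := mem_image.1 hc
    have := hmin j hj
    omega
  have c1 : (insert (i0 - 1) (A.image (· + 1))).card = A.card + 1 := by
    rw [card_insert_of_notMem hn, card_shift_up]
  have hT : ∀ i ∈ insert (i0 - 1) (A.image (· + 1)), i < m := by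
    intro i hi'
    rcases mem_insert.1 hi' with rfl | hi'
    · omega
    · obtain ⟨j, hj, rfl⟩ := mem_image.1 hi'
      exact (h0 j hj).2
  rw [← c1, ← card_image_of_injOn (s := insert (i0 - 1) (A.image (· + 1))) (f := x)
    (fun i hi' j hj' e => inj i (hT i hi') j (hT j hj') e)]
  refine card_le_card ?_
  intro v hv
  obtain ⟨i, hi', rfl⟩ := mem_image.1 hv
  rw [mem_N2]
  refine ⟨hh i (hT i hi'), ?_⟩
  rcases mem_insert.1 hi' with rfl | hi'
  · have h6 := (hA' _).1 hi
    have h7 : i0 - 1 + 1 = i0 := by omega
    refine ⟨fun a => h1 (i0 - 1) (by omega) a (by rw [h7]; exact h6.2), x i0, h6.2, ?_⟩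
    have := (adj (i0 - 1) (by omega)).symm
    rwa [h7] at this
  · obtain ⟨j, hj, rfl⟩ := mem_image.1 hi'
    have h5 := h0 j hj
    have h6 := (hA' _).1 hj
    exact ⟨fun a => h1 j h5.2 h6.2 a, x j, h6.2, adj j h5.2⟩

/-- a longest path through `w0` leaves out at least `(k + 1) / 2` vertices -/
theorem LW.leave [Fintype V] [DecidableRel G.Adj] {w0 : V} {m k : ℕ} {x : ℕ → V}
    (C : LW G w0 m x) (hN : ∀ v, (N2 G v).card ≤ k) (hd : ∀ v, v ≠ w0 → k ≤ G.degree v)
    (hm : m < Fintype.card V) : k + 1 ≤ 2 * (Fintype.card V - m) := by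
  classical
  have hm0 := C.pos
  obtain ⟨p, hp, hxp⟩ := C.mem
  rcases Nat.eq_zero_or_pos k with hk | hk
  · omega
  obtain ⟨h, hh⟩ : ∃ h, Off m x h := by
    by_contra hc
    push Not at hc
    have h1 : (univ : Finset V) ⊆ (range m).image x := by
      intro v _
      have := hc v
      unfold Off at this
      push Not at this
      obtain ⟨i, hi, rfl⟩ := this
      exact mem_image.2 ⟨i, mem_range.2 hi, rfl⟩
    have h2 := card_le_card h1
    have h3 := card_image_le (s := range m) (f := x)
    rw [card_univ] at h2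
    rw [card_range] at h3
    omega
  have hoffw : ∀ v, Off m x v → v ≠ w0 := by
    rintro v hv rfl
    exact hv p hp hxp
  have h0 : ∀ i ∈ W G m x h, 1 ≤ i ∧ i + 1 < m := by
    intro i hi
    have hi' := mem_W.1 hi
    refine ⟨?_, ?_⟩
    · rcases Nat.eq_zero_or_pos i with h0 | h0
      · subst h0
        exfalso
        have := C.count67 [h] (isP_one h) (off_one hh) [(m, m), (0, m - 1)] (by simp; omega)
          (by simp [Dis]; omega)
          (by simp only [List.isChain_cons_cons, List.isChain_singleton, and_true]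
              rw [ext1, ext_lt (by omega)]; exact hi'.2) hp hxp
          ⟨(0, m - 1), by simp, Or.inl ⟨by simp, by simp only; omega⟩⟩
        simp [len] at this; omega
      · exact h0
    · by_contra hc
      have : i = m - 1 := by omega
      subst this
      have := C.count67 [h] (isP_one h) (off_one hh) [(0, m - 1), (m, m)] (by simp; omega)
        (by simp [Dis]; omega)
        (by simp only [List.isChain_cons_cons, List.isChain_singleton, and_true]
            rw [ext1, ext_lt (by omega)]; exact hi'.2.symm) hp hxp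
        ⟨(0, m - 1), by simp, Or.inl ⟨by simp, by simp only; omega⟩⟩
      simp [len] at this; omega
  have hpos : ∀ i, i + 1 < m → ∀ q : ℕ, ∃ s ∈ [((0 : ℕ), i), (m, q), (i + 1, m - 1)],
      (s.1 ≤ p ∧ p ≤ s.2) ∨ (s.2 ≤ p ∧ p ≤ s.1) := by
    intro i hi q
    rcases Nat.lt_or_ge i p with h | h
    · exact ⟨(i + 1, m - 1), by simp, Or.inl ⟨h, by simp only; omega⟩⟩
    · exact ⟨(0, i), by simp, Or.inl ⟨by simp, h⟩⟩
  have h1 : ∀ i, i + 1 < m → G.Adj h (x i) → G.Adj h (x (i + 1)) → False := by
    intro i hi a1 a2
    have := C.count67 [h] (isP_one h) (off_one hh) [(0, i), (m, m), (i + 1, m - 1)]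
      (by simp; omega) (by simp [Dis]; omega)
      (by simp only [List.isChain_cons_cons, List.isChain_singleton, and_true]
          refine ⟨?_, ?_⟩
          · rw [ext1, ext_lt (by omega)]; exact a1.symm
          · rw [ext1, ext_lt (by omega)]; exact a2) hp hxp (hpos i hi m)
    simp [len] at this; omega
  -- an off neighbour
  obtain ⟨h', hh', b⟩ : ∃ h', Off m x h' ∧ G.Adj h h' := by
    by_contra hc
    push Not at hc
    have h2 : (NO G m x h).card ≤ 1 := by
      refine (card_le_card (t := {h}) ?_).trans (card_singleton h).le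
      intro v hv
      obtain ⟨h5, h6⟩ := mem_NO.1 hv
      rw [mem_singleton]
      rcases h5 with h5 | h5
      · exact h5
      · exact absurd h5 (hc v h6)
    have h3 := card_NO67 (G := G) hh
    have h4 := hd h (hoffw h hh)
    have h5 := lemma1_gen67 C.inj C.adj hh h0 h1 (by rw [← card_pos]; omega)
    have h6 := hN h
    omega
  have key := ldens_gen67 (G := G) C.inj C.adj hh b h0 h1
    (by
      intro i hi a1 a2
      have := C.count67 [h, h'] (isP_two b) (off_two hh' hh) [(0, i), (m, m + 1), (i + 1, m - 1)]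
        (by simp; omega) (by simp [Dis]; omega)
        (by simp only [List.isChain_cons_cons, List.isChain_singleton, and_true]
            refine ⟨?_, ?_⟩
            · rw [ext2a, ext_lt (by omega)]; exact a1.symm
            · rw [ext2b, ext_lt (by omega)]; exact a2) hp hxp (hpos i hi (m + 1))
      simp [len] at this; omega)
    (by
      intro i hi a1 a2
      have := C.count67 [h', h] (isP_two b.symm) (off_two hh hh')
        [(0, i), (m, m + 1), (i + 1, m - 1)]
        (by simp; omega) (by simp [Dis]; omega)
        (by simp only [List.isChain_cons_cons, List.isChain_singleton, and_true]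
            refine ⟨?_, ?_⟩
            · rw [ext2a, ext_lt (by omega)]; exact a1.symm
            · rw [ext2b, ext_lt (by omega)]; exact a2) hp hxp (hpos i hi (m + 1))
      simp [len] at this; omega) {p}
    (by
      intro i hi hip a1 a2 a3
      rw [mem_singleton] at hip
      have := C.count67 [h, h'] (isP_two b) (off_two hh' hh)
        [(0, i), (m, m + 1), (i + 2, m - 1)] (by simp; omega) (by simp [Dis]; omega)
        (by simp only [List.isChain_cons_cons, List.isChain_singleton, and_true]
            refine ⟨?_, ?_⟩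
            · rw [ext2a, ext_lt (by omega)]; exact a1.symm
            · rw [ext2b, ext_lt (by omega)]; exact a3) hp hxp (by
          rcases Nat.lt_or_ge i p with h | h
          · exact ⟨(i + 2, m - 1), by simp, Or.inl ⟨by simp only; omega, by simp only; omega⟩⟩
          · exact ⟨(0, i), by simp, Or.inl ⟨by simp, h⟩⟩)
      simp [len] at this; omega)
  have h2 := card_NO67 (G := G) hh
  have h3 := card_NO67 (G := G) hh'
  have h4 := le_card_sdiff (NO G m x h) (NO G m x h')
  have h5 := hd h (hoffw h hh)
  have h6 := hd h' (hoffw h' hh')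
  have h7 := hN h
  have h8 := off_card67 C.inj (NO G m x h) (fun v hv => (mem_NO.1 hv).2)
  rw [card_singleton] at key
  omega

end Pool.Agent.MP5ce328
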