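import Pool.Agent.Lib.MP_5ce328_co.CB_42
import Pool.Agent.Lib.MP_5ce328_co.BR_21
import Pool.Agent.Lib.MP_5ce328_co.Full.FinalCore
import Pool.Agent.Lib.MP_5ce328_co.Full.Upper
import Pool.Agent.Lib.MP_5ce328_co.Full.ZB

namespace Pool.Agent.MP5ce328

open Finset

variable {V : Type*} {G : SimpleGraph V}

/-- existence of a longest path through `w` -/
theorem exists_LW [Fintype V] (G : SimpleGraph V) (w : V) :
    ∃ (m : ℕ) (x : ℕ → V), LW G w m x ∧ ∃ l : List V, IsP G l ∧ w ∈ l ∧ l.length = m := by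
  classical
  have hb : ∀ l : List V, IsP G l → l.length ≤ Fintype.card V := fun l hl => hl.1.length_le_card
  let Q : ℕ → Prop := fun m => ∃ l : List V, IsP G l ∧ w ∈ l ∧ l.length = m
  have h0 : Q 1 := ⟨[w], isP_one w, by simp, rfl⟩
  set m := Nat.findGreatest Q (Fintype.card V) with hm
  have hpos : 1 ≤ Fintype.card V := Fintype.card_pos_iff.2 ⟨w⟩
  have h2 : Q m := Nat.findGreatest_spec (P := Q) (m := 1) hpos h0
  have h4 : ∀ l : List V, IsP G l → w ∈ l → l.length ≤ m := fun l hl hw =>
    Nat.le_findGreatest (hb l hl) ⟨l, hl, hw, rfl⟩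
  obtain ⟨l, hl, hw, hlen⟩ := h2
  refine ⟨m, fun i => l.getD i w, ⟨?_, ?_, ?_, ?_, h4⟩, l, hl, hw, hlen⟩
  · have := List.length_pos_of_mem hw
    omega
  · intro i hi j hj h
    try dsimp only at h
    rw [List.getD_eq_getElem _ _ (by omega), List.getD_eq_getElem _ _ (by omega)] at h
    exact (List.Nodup.getElem_inj_iff hl.1).1 h
  · intro i hi
    try dsimp only
    rw [List.getD_eq_getElem _ _ (by omega), List.getD_eq_getElem _ _ (by omega)]
    exact List.isChain_iff_getElem.1 hl.2 i (by omega)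
  · obtain ⟨j, hj, hj'⟩ := List.getElem_of_mem hw
    exact ⟨j, by omega, by (try dsimp only); rw [List.getD_eq_getElem _ _ hj]; exact hj'⟩

/-- **case B**: every longest path leaves out exactly `w0` -/
theorem LP.caseB_full [Fintype V] [DecidableRel G.Adj] {m k : ℕ} {x : ℕ → V} (C : LP G m x)
    (hG : G.Connected) (w0 : V) (hd : ∀ v, v ≠ w0 → k ≤ G.degree v)
    (hE : ∀ v, (EV G v).card ≤ k) (hw : Off m x w0)
    (hS : ∀ y, LP G m y → ∀ v, Off m y v → v = w0) (hk : 1 ≤ k) : False := by
  classical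
  have hcard : m + 1 ≤ Fintype.card V := by
    have h1 := C.card_off
    have h2 : 0 < (univ.filter (fun v => Off m x v)).card :=
      card_pos.2 ⟨w0, by rw [mem_filter]; exact ⟨mem_univ _, hw⟩⟩
    omega
  have hcard' : Fintype.card V ≤ m + 1 := by
    have h1 := C.card_off
    have h2 : (univ.filter (fun v => Off m x v)).card ≤ 1 := by
      rw [card_le_one]
      intro a ha b hb
      rw [hS x C a (mem_filter.1 ha).2, hS x C b (mem_filter.1 hb).2]
    omega
  have hN : ∀ v, (N2 G v).card ≤ k := fun v => (card_le_card (N2_sub_EV hG v)).trans (hE v)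
  have hne : (W G m x w0).Nonempty := by
    obtain ⟨i, hi, v, hv, a⟩ := exists_cross hG (u := x 0) (z := w0)
      (fun ho => ho 0 C.pos rfl) hw
    have := hS x C v hv
    subst this
    exact ⟨i, mem_W.2 ⟨hi, a⟩⟩
  obtain ⟨y, D, S, fa, fb⟩ := C.far_bothS hw hS hne (hN w0) hd
  have gw : Off m y w0 := S.off hw
  have hne' : (W G m y w0).Nonempty := by
    rw [← card_pos, ← card_W_same C D S, card_pos]; exact hne
  have hm := D.pos
  -- all neighbours of `w0` are on the path
  have hon : ∀ v, v ≠ w0 → ∃ i < m, y i = v := by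
    intro v hv
    by_contra hc
    push Not at hc
    exact hv (hS y D v hc)
  have hWdeg : (W G m y w0).card = G.degree w0 := card_W D w0 (fun v a => hon v a.ne')
  -- the longest path through `w0`
  obtain ⟨m', x', L, l, hl, hwl, hlen⟩ := exists_LW G w0
  have hm' : m' ≤ m := by rw [← hlen]; exact D.max l hl
  have hleave := L.leave (k := k) hN hd (by omega)
  set K := Fintype.card V - m' with hK
  have hIns : Ins G m y K [w0] := by
    refine ⟨isP_one w0, off_one gw, by simp, ?_⟩
    intro l hl hmem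
    have := L.max l hl (hmem w0 (by simp))
    simp only [List.length_cons, List.length_nil]
    omega
  set X := min (G.degree w0) ((k + 1) / 2) with hXdef
  have hr := card_pos.2 hne'
  have hX1 : 1 ≤ X := by
    rw [hXdef, le_min_iff]
    exact ⟨by omega, by omega⟩
  have hXr : X ≤ (W G m y w0).card := by rw [hWdeg]; exact min_le_left _ _
  have hXk : X ≤ (k + 1) / 2 := min_le_right _ _
  obtain ⟨P, hPW, hPc⟩ := exists_subset_card_eq hXr
  have hPa : ∀ q ∈ P, q < m ∧ G.Adj w0 (y q) := fun q hq => mem_W.1 (hPW hq)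
  have hPm : ∀ q ∈ P, q + 1 < m := by
    intro q hq
    have hq' := hPa q hq
    by_contra hc
    have : q = m - 1 := by omega
    subst this
    exact D.not_last gw hq'.2
  have hGp : ∀ t t', G.Adj w0 t → G.Adj w0 t' → Gp G m y K t t' := fun t t' a a' =>
    ⟨[w0], w0, w0, hIns, rfl, rfl, a, a'⟩
  have hno : ∀ q ∈ P, ¬ G.Adj (y (q + 1)) w0 := fun q hq a =>
    D.not_consec gw (hPm q hq) (hPa q hq).2 a.symm
  refine D.final_core (k := k) {w0} (by intro v hv; rw [mem_singleton.1 hv]; exact gw)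
    (mem_singleton_self w0) (fun v a _ => hon v a.ne') hX1 (by omega) (by omega) P hPc hPm
    (fun q hq q' hq' _ => hGp _ _ (hPa q hq).2 (hPa q' hq').2)
    (fun q hq => (hGp _ _ (hPa q hq).2 (hPa q hq).2).tl)
    (fun r hr a => fb.2.2 _ (mem_W.1 hr).2 a.symm)
    (fun r hr => (hGp _ _ (mem_W.1 hr).2 (mem_W.1 hr).2).tl)
    (fun r hr q hq _ => hGp _ _ (hPa q hq).2 (mem_W.1 hr).2)
    (hd _ (gw 0 hm)) (hd _ (gw (m - 1) (by omega)))
    (fun q hq _ => hd _ (gw (q + 1) (hPm q hq)))
    (fun q hq z hz a hzH => by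
      rw [mem_singleton.1 hzH] at a
      exact hno q hq a)
    (fun q hq q' _ _ z hz a _ => by
      rw [hS y D z hz] at a
      exact hno q hq a) ?_
  obtain ⟨t, c, ht, htc, hup⟩ := upper hG hE {w0} (mem_singleton_self w0) (G.neighborFinset w0)
    (by
      intro q hq
      rw [mem_singleton] at hq
      obtain ⟨z, hz, hz'⟩ := br_next hG (Ne.symm hq)
      refine ⟨z, (SimpleGraph.mem_neighborFinset _ _ _).2 hz, hz.ne', ?_⟩
      have : G.dist w0 z = 1 := SimpleGraph.dist_eq_one_iff_adj.2 hz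
      omega)
  refine ⟨t, c, htc, ?_, hup⟩
  rw [SimpleGraph.card_neighborFinset_eq_degree] at ht
  rcases le_total (G.degree w0) ((k + 1) / 2) with h | h
  · left; rw [hXdef, min_eq_left h]; exact ht
  · right; rw [hXdef, min_eq_right h]; omega

end Pool.Agent.MP5ce328
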