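import Mathlib

/-!
# Koenig's theorem for a relation between two finite sets

A least vertex cover `(CA, CB)` and a matching `M` with `|M| = |CA| + |CB|`, obtained from two
applications of Hall's theorem.
-/

namespace Pool.Agent.MP5ce328
open Finset

/-- Hall's theorem for a relation, as a matching given by a function on `A`. -/
private theorem hall10 {α β : Type*} [DecidableEq α] [DecidableEq β] (A : Finset α) (U : Finset β)
    (R : α → β → Prop)
    (h : ∀ A' ⊆ A, ∃ B' ⊆ U, A'.card ≤ B'.card ∧ ∀ b ∈ B', ∃ a ∈ A', R a b) :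
    ∃ f : {a // a ∈ A} → β, Function.Injective f ∧ ∀ a, f a ∈ U ∧ R a.1 (f a) := by
  classical
  have key := (Finset.all_card_le_biUnion_card_iff_exists_injective
    (fun a : {a // a ∈ A} => U.filter (fun b => R a.1 b))).1 (by
      intro s
      obtain ⟨B', hB', hc, hr⟩ := h (s.map (Function.Embedding.subtype _)) (by
        intro a ha
        simp only [Finset.mem_map, Function.Embedding.subtype_apply] at ha
        obtain ⟨b, _, rfl⟩ := ha
        exact b.2)
      rw [Finset.card_map] at hc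
      refine hc.trans (Finset.card_le_card ?_)
      intro b hb
      obtain ⟨a, ha, hab⟩ := hr b hb
      simp only [Finset.mem_map, Function.Embedding.subtype_apply] at ha
      obtain ⟨a', ha', rfl⟩ := ha
      simp only [Finset.mem_biUnion, Finset.mem_filter]
      exact ⟨a', ha', hB' hb, hab⟩)
  obtain ⟨f, hf, hf'⟩ := key
  exact ⟨f, hf, fun a => by simpa [Finset.mem_filter] using hf' a⟩

/-- In a least cover, every subset `A'` of the left part has at least `|A'|` neighbours outside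
the right part. -/
private theorem side10 {α β : Type*} [DecidableEq α] [DecidableEq β] (S : Finset α) (T : Finset β)
    (R : α → β → Prop) (CA : Finset α) (CB : Finset β) (hA : CA ⊆ S) (hB : CB ⊆ T)
    (hcov : ∀ a ∈ S, ∀ b ∈ T, R a b → a ∈ CA ∨ b ∈ CB)
    (hmin : ∀ (A : Finset α) (B : Finset β), A ⊆ S → B ⊆ T →
      (∀ a ∈ S, ∀ b ∈ T, R a b → a ∈ A ∨ b ∈ B) → CA.card + CB.card ≤ A.card + B.card) :
    ∀ A' ⊆ CA, ∃ B' ⊆ T \ CB, A'.card ≤ B'.card ∧ ∀ b ∈ B', ∃ a ∈ A', R a b := by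
  classical
  intro A' hA'
  refine ⟨(T \ CB).filter (fun b => ∃ a ∈ A', R a b), Finset.filter_subset _ _, ?_, fun b hb =>
    (Finset.mem_filter.1 hb).2⟩
  have h1 := hmin (CA \ A') (CB ∪ (T \ CB).filter (fun b => ∃ a ∈ A', R a b))
    (Finset.sdiff_subset.trans hA)
    (Finset.union_subset hB ((Finset.filter_subset _ _).trans Finset.sdiff_subset)) (by
      intro a ha b hb hab
      rcases hcov a ha b hb hab with h | h
      · by_cases haA : a ∈ A'
        · right
          by_cases hbB : b ∈ CB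
          · exact Finset.mem_union_left _ hbB
          · exact Finset.mem_union_right _ (Finset.mem_filter.2
              ⟨Finset.mem_sdiff.2 ⟨hb, hbB⟩, a, haA, hab⟩)
        · left
          exact Finset.mem_sdiff.2 ⟨h, haA⟩
      · right
        exact Finset.mem_union_left _ h)
  have h2 := Finset.card_sdiff_of_subset hA'
  have h3 := Finset.card_union_le CB ((T \ CB).filter (fun b => ∃ a ∈ A', R a b))
  have h4 := Finset.card_le_card hA'
  omega

theorem koenig {α β : Type*} [DecidableEq α] [DecidableEq β] (S : Finset α) (T : Finset β)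
    (R : α → β → Prop) : ∃ (CA : Finset α) (CB : Finset β) (M : Finset (α × β)),
      CA ⊆ S ∧ CB ⊆ T ∧ (∀ a ∈ S, ∀ b ∈ T, R a b → a ∈ CA ∨ b ∈ CB) ∧
      M.card = CA.card + CB.card ∧ (∀ p ∈ M, p.1 ∈ S ∧ p.2 ∈ T ∧ R p.1 p.2) ∧
      (∀ p ∈ M, ∀ q ∈ M, p.1 = q.1 → p = q) ∧ (∀ p ∈ M, ∀ q ∈ M, p.2 = q.2 → p = q) ∧
      (∀ a ∈ CA, ∃ p ∈ M, p.1 = a) := by
  classical
  -- a least cover
  have hne : ∃ n, ∃ (A : Finset α) (B : Finset β), A ⊆ S ∧ B ⊆ T ∧
      (∀ a ∈ S, ∀ b ∈ T, R a b → a ∈ A ∨ b ∈ B) ∧ A.card + B.card = n :=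
    ⟨_, S, ∅, Finset.Subset.refl _, Finset.empty_subset _, fun a ha _ _ _ => Or.inl ha, rfl⟩
  obtain ⟨CA, CB, hA, hB, hcov, hcard⟩ := Nat.find_spec hne
  have hmin : ∀ (A : Finset α) (B : Finset β), A ⊆ S → B ⊆ T →
      (∀ a ∈ S, ∀ b ∈ T, R a b → a ∈ A ∨ b ∈ B) → CA.card + CB.card ≤ A.card + B.card := by
    intro A B h1 h2 h3
    rw [hcard]
    exact Nat.find_min' hne ⟨A, B, h1, h2, h3, rfl⟩
  -- two matchings
  obtain ⟨f, hf, hf'⟩ := hall10 CA (T \ CB) R (side10 S T R CA CB hA hB hcov hmin)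
  obtain ⟨g, hg, hg'⟩ := hall10 CB (S \ CA) (fun b a => R a b)
    (side10 T S (fun b a => R a b) CB CA hB hA
      (fun b hb a ha hab => (hcov a ha b hb hab).symm)
      (fun B A h1 h2 h3 => by
        have := hmin A B h2 h1 (fun a ha b hb hab => (h3 b hb a ha hab).symm)
        omega))
  set M1 : Finset (α × β) := CA.attach.image (fun a => (a.1, f a)) with hM1
  set M2 : Finset (α × β) := CB.attach.image (fun b => (g b, b.1)) with hM2
  have m1 : ∀ p ∈ M1, p.1 ∈ CA ∧ p.2 ∈ T \ CB ∧ R p.1 p.2 := by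
    intro p hp
    obtain ⟨a, _, rfl⟩ := Finset.mem_image.1 hp
    exact ⟨a.2, (hf' a).1, (hf' a).2⟩
  have m2 : ∀ p ∈ M2, p.1 ∈ S \ CA ∧ p.2 ∈ CB ∧ R p.1 p.2 := by
    intro p hp
    obtain ⟨b, _, rfl⟩ := Finset.mem_image.1 hp
    exact ⟨(hg' b).1, b.2, (hg' b).2⟩
  have c1 : M1.card = CA.card := by
    rw [hM1, Finset.card_image_of_injective, Finset.card_attach]
    intro a b h
    exact Subtype.ext (Prod.mk.inj h).1
  have c2 : M2.card = CB.card := by
    rw [hM2, Finset.card_image_of_injective, Finset.card_attach]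
    intro a b h
    exact Subtype.ext (Prod.mk.inj h).2
  have hd : Disjoint M1 M2 := by
    rw [Finset.disjoint_left]
    intro p h1 h2
    exact (Finset.mem_sdiff.1 (m2 p h2).1).2 (m1 p h1).1
  have i11 : ∀ p ∈ M1, ∀ q ∈ M1, p.1 = q.1 → p = q := by
    intro p hp q hq h
    obtain ⟨a, _, rfl⟩ := Finset.mem_image.1 hp
    obtain ⟨b, _, rfl⟩ := Finset.mem_image.1 hq
    have : a = b := Subtype.ext h
    rw [this]
  have i12 : ∀ p ∈ M1, ∀ q ∈ M1, p.2 = q.2 → p = q := by
    intro p hp q hq h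
    obtain ⟨a, _, rfl⟩ := Finset.mem_image.1 hp
    obtain ⟨b, _, rfl⟩ := Finset.mem_image.1 hq
    have : a = b := hf h
    rw [this]
  have i21 : ∀ p ∈ M2, ∀ q ∈ M2, p.1 = q.1 → p = q := by
    intro p hp q hq h
    obtain ⟨a, _, rfl⟩ := Finset.mem_image.1 hp
    obtain ⟨b, _, rfl⟩ := Finset.mem_image.1 hq
    have : a = b := hg h
    rw [this]
  have i22 : ∀ p ∈ M2, ∀ q ∈ M2, p.2 = q.2 → p = q := by
    intro p hp q hq h
    obtain ⟨a, _, rfl⟩ := Finset.mem_image.1 hp
    obtain ⟨b, _, rfl⟩ := Finset.mem_image.1 hq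
    have : a = b := Subtype.ext h
    rw [this]
  refine ⟨CA, CB, M1 ∪ M2, hA, hB, hcov, ?_, ?_, ?_, ?_, ?_⟩
  · rw [Finset.card_union_of_disjoint hd, c1, c2]
  · intro p hp
    rcases Finset.mem_union.1 hp with h | h
    · exact ⟨hA (m1 p h).1, (Finset.mem_sdiff.1 (m1 p h).2.1).1, (m1 p h).2.2⟩
    · exact ⟨(Finset.mem_sdiff.1 (m2 p h).1).1, hB (m2 p h).2.1, (m2 p h).2.2⟩
  · intro p hp q hq h
    rcases Finset.mem_union.1 hp with hp | hp <;> rcases Finset.mem_union.1 hq with hq | hq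
    · exact i11 p hp q hq h
    · exact absurd (h ▸ (m1 p hp).1) (Finset.mem_sdiff.1 (m2 q hq).1).2
    · exact absurd (h.symm ▸ (m1 q hq).1) (Finset.mem_sdiff.1 (m2 p hp).1).2
    · exact i21 p hp q hq h
  · intro p hp q hq h
    rcases Finset.mem_union.1 hp with hp | hp <;> rcases Finset.mem_union.1 hq with hq | hq
    · exact i12 p hp q hq h
    · exact absurd (h.symm ▸ (m2 q hq).2.1) (Finset.mem_sdiff.1 (m1 p hp).2.1).2
    · exact absurd (h ▸ (m2 p hp).2.1) (Finset.mem_sdiff.1 (m1 q hq).2.1).2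
    · exact i22 p hp q hq h
  · intro a ha
    exact ⟨(a, f ⟨a, ha⟩), Finset.mem_union_left _
      (Finset.mem_image.2 ⟨⟨a, ha⟩, Finset.mem_attach _ _, rfl⟩), rfl⟩

end Pool.Agent.MP5ce328
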