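import Pool.Agent.Lib.MP_5ce328_co.Full.Defs

/-!
Local density off a longest path (helper67).
-/

namespace Pool.Agent.MP5ce328

open Finset

variable {V : Type*} {G : SimpleGraph V}

/-- general form: `x` is any path, the four kinds of insertions are excluded, the last one only
for positions outside `E` -/
theorem ldens_gen67 [Fintype V] [DecidableEq V] {m : ℕ} {x : ℕ → V}
    (inj : ∀ i < m, ∀ j < m, x i = x j → i = j)
    (adj : ∀ i, i + 1 < m → G.Adj (x i) (x (i + 1))) {h h' : V} (hh : Off m x h)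
    (b : G.Adj h h') (h0 : ∀ i ∈ W G m x h, 1 ≤ i ∧ i + 1 < m)
    (h1 : ∀ i, i + 1 < m → G.Adj h (x i) → G.Adj h (x (i + 1)) → False)
    (h2 : ∀ i, i + 1 < m → G.Adj h (x i) → G.Adj h' (x (i + 1)) → False)
    (h2' : ∀ i, i + 1 < m → G.Adj h' (x i) → G.Adj h (x (i + 1)) → False) (E : Finset ℕ)
    (h3 : ∀ i, i + 2 < m → i + 1 ∉ E → G.Adj h (x i) → G.Adj h (x (i + 2)) →
      G.Adj h' (x (i + 2)) → False) :
    (W G m x h).card + (W G m x h').card + (NO G m x h' \ NO G m x h).card ≤
      (N2 G h).card + E.card := by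
  set A := W G m x h with hA
  set B := W G m x h' with hB
  have hA' : ∀ i, i ∈ A ↔ i < m ∧ G.Adj h (x i) := fun i => mem_W
  have hB' : ∀ i, i ∈ B ↔ i < m ∧ G.Adj h' (x i) := fun i => mem_W
  have c1 : (A.image (· + 1)).card = A.card := card_shift_up A 1
  have c2 : ((A ∩ B).image (· - 1)).card = (A ∩ B).card :=
    card_shift_down _ (fun i hi => (h0 i (mem_inter.1 hi).1).1)
  have c2' : (A ∩ B).card ≤ (((A ∩ B).image (· - 1)) \ E).card + E.card := by
    rw [← c2]
    have := le_card_sdiff E ((A ∩ B).image (· - 1))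
    omega
  have c3 : (B \ A).card + (A ∩ B).card = B.card := by
    rw [inter_comm]
    exact card_sdiff_add_card_inter B A
  set T1 := A.image (· + 1) with hT1
  set T2 := ((A ∩ B).image (· - 1)) \ E with hT2
  have m1 : ∀ i, i ∈ T1 → ∃ j ∈ A, i = j + 1 := by
    intro i hi
    obtain ⟨j, hj, rfl⟩ := mem_image.1 hi
    exact ⟨j, hj, rfl⟩
  have m2 : ∀ i, i ∈ T2 → i ∉ E ∧ i + 1 ∈ A ∧ i + 1 ∈ B := by
    intro i hi
    obtain ⟨h4, h5⟩ := mem_sdiff.1 hi
    obtain ⟨l, hl, he⟩ := mem_image.1 h4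
    have := (h0 l (mem_inter.1 hl).1).1
    have e : l = i + 1 := by omega
    subst e
    exact ⟨h5, mem_inter.1 hl⟩
  have d12 : Disjoint T1 T2 := by
    rw [disjoint_left]
    intro i hi hi'
    obtain ⟨j, hj, rfl⟩ := m1 i hi
    obtain ⟨h4, h5, h6⟩ := m2 _ hi'
    have h5' := (hA' _).1 h5
    exact h3 j (by omega) h4 ((hA' _).1 hj).2 h5'.2 ((hB' _).1 h6).2
  have d13 : Disjoint T1 (B \ A) := by
    rw [disjoint_left]
    intro i hi hi'
    obtain ⟨j, hj, rfl⟩ := m1 i hi
    have h5 := (hB' _).1 (mem_sdiff.1 hi').1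
    exact h2 j h5.1 ((hA' _).1 hj).2 h5.2
  have d23 : Disjoint T2 (B \ A) := by
    rw [disjoint_left]
    intro i hi hi'
    obtain ⟨_, h5, _⟩ := m2 _ hi
    have h6 := (hB' _).1 (mem_sdiff.1 hi').1
    have h5' := (hA' _).1 h5
    exact h2' i h5'.1 h6.2 h5'.2
  have cT : (T1 ∪ T2 ∪ (B \ A)).card = T1.card + T2.card + (B \ A).card := by
    rw [card_union_of_disjoint (disjoint_union_left.2 ⟨d13, d23⟩), card_union_of_disjoint d12]
  have hT : ∀ i ∈ T1 ∪ T2 ∪ (B \ A), i < m := by
    intro i hi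
    rw [mem_union, mem_union] at hi
    rcases hi with (hi | hi) | hi
    · obtain ⟨j, hj, rfl⟩ := m1 i hi
      exact (h0 j hj).2
    · have := (hA' _).1 (m2 _ hi).2.1
      omega
    · exact ((hB' _).1 (mem_sdiff.1 hi).1).1
  have cI : ((T1 ∪ T2 ∪ (B \ A)).image x).card = (T1 ∪ T2 ∪ (B \ A)).card := by
    refine card_image_of_injOn ?_
    intro i hi j hj e
    exact inj i (hT i hi) j (hT j hj) e
  have dI : Disjoint ((T1 ∪ T2 ∪ (B \ A)).image x) (NO G m x h' \ NO G m x h) := by
    rw [disjoint_left]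
    intro v hv hv'
    obtain ⟨i, hi, rfl⟩ := mem_image.1 hv
    exact (mem_NO.1 (mem_sdiff.1 hv').1).2 i (hT i hi) rfl
  have hsub : (T1 ∪ T2 ∪ (B \ A)).image x ∪ (NO G m x h' \ NO G m x h) ⊆ N2 G h := by
    intro v hv
    rw [mem_N2]
    rcases mem_union.1 hv with hv | hv
    · obtain ⟨i, hi, rfl⟩ := mem_image.1 hv
      refine ⟨hh i (hT i hi), ?_⟩
      rw [mem_union, mem_union] at hi
      rcases hi with (hi | hi) | hi
      · obtain ⟨j, hj, rfl⟩ := m1 i hi
        have h5 := h0 j hj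
        have h6 := (hA' _).1 hj
        exact ⟨fun a => h1 j h5.2 h6.2 a, x j, h6.2, adj j h5.2⟩
      · obtain ⟨_, h5, _⟩ := m2 _ hi
        have h6 := (hA' _).1 h5
        exact ⟨fun a => h1 i h6.1 a h6.2, x (i + 1), h6.2, (adj i h6.1).symm⟩
      · have h5 := (hB' _).1 (mem_sdiff.1 hi).1
        exact ⟨fun a => (mem_sdiff.1 hi).2 ((hA' _).2 ⟨h5.1, a⟩), h', b, h5.2⟩
    · obtain ⟨h5, h6⟩ := mem_sdiff.1 hv
      obtain ⟨h7, h8⟩ := mem_NO.1 h5
      have h9 : ¬ (v = h ∨ G.Adj h v) := fun h => h6 (mem_NO.2 ⟨h, h8⟩)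
      push Not at h9
      refine ⟨h9.1, h9.2, h', b, ?_⟩
      rcases h7 with rfl | h7
      · exact absurd b h9.2
      · exact h7
  have h4 := card_le_card hsub
  rw [card_union_of_disjoint dI, cI, cT, c1] at h4
  omega

theorem LP.ldens [Fintype V] [DecidableEq V] {m : ℕ} {x : ℕ → V} (C : LP G m x) {h h' : V}
    (hh : Off m x h) (hh' : Off m x h') (b : G.Adj h h') :
    (W G m x h).card + (W G m x h').card + (NO G m x h' \ NO G m x h).card ≤ (N2 G h).card := by
  have hm := C.pos
  have key := ldens_gen67 (G := G) C.inj C.adj hh b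
    (by
      intro i hi
      have hi' := mem_W.1 hi
      refine ⟨?_, ?_⟩
      · rcases Nat.eq_zero_or_pos i with h0 | h0
        · subst h0
          exact absurd hi'.2 (C.not_first hh)
        · exact h0
      · by_contra hc
        have : i = m - 1 := by omega
        subst this
        exact C.not_last hh hi'.2)
    (fun i hi a1 a2 => C.not_consec hh hi a1 a2)
    (by
      intro i hi a1 a2
      exact C.not_insert (isP_two b) (off_two hh' hh) (h := h) (g := h') (by simp) (by simp)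
        (by simp) hi a1 a2)
    (by
      intro i hi a1 a2
      exact C.not_insert (isP_two b.symm) (off_two hh hh') (h := h') (g := h) (by simp) (by simp)
        (by simp) hi a1 a2) ∅
    (by
      intro i hi _ a1 a2 a3
      have := C.count [h, h'] (isP_two b) (off_two hh' hh)
        [(0, i), (m, m + 1), (i + 2, m - 1)] (by simp; omega) (by simp [Dis]; omega)
        (by simp only [List.isChain_cons_cons, List.isChain_singleton, and_true]
            refine ⟨?_, ?_⟩
            · rw [ext2a, ext_lt (by omega)]; exact a1.symm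
            · rw [ext2b, ext_lt (by omega)]; exact a3)
      simp [len] at this; omega)
  simpa using key

theorem LP.off_degree [Fintype V] [DecidableRel G.Adj] {m k : ℕ} {x : ℕ → V} (C : LP G m x)
    {h h' : V} (hh : Off m x h) (hh' : Off m x h') (b : G.Adj h h') (hk : (N2 G h).card ≤ k)
    (hd : k ≤ G.degree h) (hd' : k ≤ G.degree h') : k + 2 ≤ 2 * (NO G m x h).card := by
  classical
  have h1 := C.ldens hh hh' b
  have h2 := card_NO C hh
  have h3 := card_NO C hh'
  have h4 := le_card_sdiff (NO G m x h) (NO G m x h')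
  omega

/-- `w0` has degree at most 2 if all off neighbours of `h` are `w0` -/
theorem LP.off_small [Fintype V] [DecidableRel G.Adj] {m k : ℕ} {x : ℕ → V} (C : LP G m x)
    {h w0 : V} (hh : Off m x h) (hw : Off m x w0) (b : G.Adj h w0) (hk : (N2 G h).card ≤ k)
    (hd : k ≤ G.degree h) (hall : ∀ v, Off m x v → G.Adj h v → v = w0) : G.degree w0 ≤ 2 := by
  classical
  have h1 := C.ldens hh hw b
  have h2 := card_NO C hh
  have h3 := card_NO C hw
  have h4 : (NO G m x h).card ≤ 2 := by
    refine (card_le_card (t := {h, w0}) ?_).trans card_le_two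
    intro v hv
    obtain ⟨h5, h6⟩ := mem_NO.1 hv
    rw [mem_insert, mem_singleton]
    rcases h5 with h5 | h5
    · exact Or.inl h5
    · exact Or.inr (hall v h6 h5)
  have h5 := le_card_sdiff (NO G m x h) (NO G m x w0)
  omega

end Pool.Agent.MP5ce328
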