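import Pool.Agent.Lib.MP_5ce328_co.Full.Defs
import Pool.Agent.Lib.MP_5ce328_co.Long65

/-!
# Long paths in an inseparable set with one exceptional vertex (helper65)
-/

namespace Pool.Agent.MP5ce328

open Finset

variable {V : Type*} {G : SimpleGraph V}

theorem Pth.pathIn {D : Finset V} {a b : V} {l : List V} (h : Pth G D a b l) :
    PathIn G D a b l := ⟨h.1, h.2.2.1, h.2.2.2, h.2.1⟩

theorem pathIn_of_cn [DecidableEq V] {S : Finset V} (hS : Cn G S) {a b : V} (ha : a ∈ S)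
    (hb : b ∈ S) : ∃ l, PathIn G S a b l := by
  obtain ⟨K, hK1, hK2, hK3, hK4⟩ := exists_part (G := G) S ha
  by_cases hbK : b ∈ K
  · obtain ⟨l, hl⟩ := hK3 b hbK
    exact ⟨l, (hl.mono hK1).pathIn⟩
  · obtain ⟨p, hp, q, hq, hqK, e⟩ := hS K hK1 ⟨a, hK2⟩ ⟨b, hb, hbK⟩
    exact absurd (hK4 p hp q hq e) hqK

/-- two neighbours of a set in an inseparable set -/
theorem two_nbrs65 [DecidableEq V] {B : Finset V} {u v : V} (hu : u ∈ B) (hv : v ∈ B)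
    (huv : u ≠ v) (hB : Cn G B) (hBi : ∀ w, Cn G (B.erase w)) (Y : Finset V) (hY : Y ⊆ B)
    (hYn : Y.Nonempty) (huY : u ∉ Y) (hvY : v ∉ Y) :
    ∃ p ∈ B, ∃ p' ∈ B, p ≠ p' ∧ p ∉ Y ∧ p' ∉ Y ∧
      (∃ y ∈ Y, G.Adj y p) ∧ ∃ y ∈ Y, G.Adj y p' := by
  obtain ⟨y, hy, p, hp, hpY, e⟩ := hB Y hY hYn ⟨u, hu, huY⟩
  obtain ⟨y', hy', p', hp', hp'Y, e'⟩ := hBi p Y (by
    intro w hw
    refine mem_erase.2 ⟨?_, hY hw⟩
    rintro rfl
    exact hpY hw) hYn (by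
    by_cases h : u = p
    · exact ⟨v, mem_erase.2 ⟨fun h' => huv (h.trans h'.symm), hv⟩, hvY⟩
    · exact ⟨u, mem_erase.2 ⟨h, hu⟩, huY⟩)
  rw [mem_erase] at hp'
  exact ⟨p, hp, p', hp'.2, Ne.symm hp'.1, hpY, hp'Y, ⟨y, hy, e⟩, y', hy', e'⟩

theorem long_F [DecidableEq V] [DecidableRel G.Adj] (d : ℕ) (B : Finset V) (c u v : V)
    (hu : u ∈ B) (hv : v ∈ B) (huv : u ≠ v) (hB : Cn G B) (hBi : ∀ w, Cn G (B.erase w))
    (hdeg : ∀ w ∈ B, w ≠ c → w ≠ u → w ≠ v → d ≤ (B.filter (fun z => G.Adj w z)).card)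
    (hcard : d + 1 ≤ B.card) : ∃ l, PathIn G B u v l ∧ d ≤ l.length := by
  by_cases h : ∃ w ∈ B, w ≠ u ∧ w ≠ v ∧ w ≠ c
  · obtain ⟨l, hl, hd⟩ := long65 (G := G) B.card B u v c d le_rfl hu hv huv
      (fun Y hY hYn huY hvY => two_nbrs65 hu hv huv hB hBi Y hY hYn huY hvY)
      (fun w hw h1 h2 h3 => hdeg w hw h3 h1 h2) h
    exact ⟨l, hl.pathIn, hd⟩
  · push Not at h
    have h1 : B ⊆ {u, v, c} := by
      intro w hw
      rw [mem_insert, mem_insert, mem_singleton]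
      by_cases h1 : w = u
      · exact Or.inl h1
      by_cases h2 : w = v
      · exact Or.inr (Or.inl h2)
      exact Or.inr (Or.inr (h w hw h1 h2))
    have h2 := card_le_card h1
    have h3 : ({u, v, c} : Finset V).card ≤ 3 := card_le_three
    obtain ⟨l, hl⟩ := pathIn_of_cn hB hu hv
    refine ⟨l, hl, ?_⟩
    have : 2 ≤ l.length := Pth.len (D := B) ⟨hl.isP, hl.mem, hl.hd, hl.lst⟩ huv
    omega

end Pool.Agent.MP5ce328
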