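import Pool.Agent.Lib.MP_5ce328_co.Full.CountG

namespace Pool.Agent.MP5ce328

open Finset

variable {V : Type*} {G : SimpleGraph V}

/-- degrees and positions: a vertex of the path -/
theorem LP.deg_split [Fintype V] [DecidableEq V] [DecidableRel G.Adj] {m : ℕ} {x : ℕ → V}
    (C : LP G m x) (u : V) : G.degree u ≤ (W G m x u).card +
      ((G.neighborFinset u).filter (fun v => ¬ ∃ i < m, x i = v)).card := by
  rw [← card_W_image C, ← SimpleGraph.card_neighborFinset_eq_degree]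
  refine (card_le_card ?_).trans (card_union_le _ _)
  intro v hv
  rw [mem_union, mem_image, mem_filter]
  by_cases h : ∃ i < m, x i = v
  · left
    obtain ⟨i, hi, rfl⟩ := h
    exact ⟨i, mem_W.2 ⟨hi, (SimpleGraph.mem_neighborFinset _ _ _).1 hv⟩, rfl⟩
  · right; exact ⟨hv, h⟩

/-- the number of vertices outside `H` -/
theorem LP.card_out [Fintype V] [DecidableEq V] {m : ℕ} {x : ℕ → V} (C : LP G m x)
    (H : Finset V) (hH : ∀ v ∈ H, Off m x v) :
    (univ \ H).card = m + ((univ \ H).filter (fun v => ¬ ∃ i < m, x i = v)).card := by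
  have h1 : ((range m).image x).card = m := by
    rw [card_image_of_injOn, card_range]
    intro i hi j hj h
    simp only [coe_range, Set.mem_Iio] at hi hj
    exact C.inj i hi j hj h
  have h2 : (univ \ H) = (range m).image x ∪ (univ \ H).filter (fun v => ¬ ∃ i < m, x i = v) := by
    ext v
    simp only [mem_sdiff, mem_univ, true_and, mem_union, mem_image, mem_range, mem_filter]
    constructor
    · intro hv
      by_cases h : ∃ i < m, x i = v
      · exact Or.inl h
      · exact Or.inr ⟨hv, h⟩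
    · rintro (⟨i, hi, rfl⟩ | h)
      · exact fun hc => hH _ hc i hi rfl
      · exact h.1
  have h3 : Disjoint ((range m).image x) ((univ \ H).filter (fun v => ¬ ∃ i < m, x i = v)) := by
    rw [disjoint_left]
    intro v hv hv'
    rw [mem_image] at hv
    obtain ⟨i, hi, rfl⟩ := hv
    exact (mem_filter.1 hv').2 ⟨i, mem_range.1 hi, rfl⟩
  calc (univ \ H).card = ((range m).image x ∪
      (univ \ H).filter (fun v => ¬ ∃ i < m, x i = v)).card := by rw [← h2]
    _ = _ := by rw [card_union_of_disjoint h3, h1]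

/-- **lower bound** -/
theorem LP.lower [Fintype V] [DecidableEq V] [DecidableRel G.Adj] {m k : ℕ} {x : ℕ → V}
    (C : LP G m x) (H : Finset V) (hH : ∀ v ∈ H, Off m x v)
    {K X : ℕ} (hX : 1 ≤ X) (hXK : X ≤ K)
    (Q : Finset ℕ) (hQ : Q.card + 1 = X) (hQm : ∀ q ∈ Q, q + 1 < m)
    (p : ℕ) (hp : p < m) (hQp : ∀ q ∈ Q, q < p)
    (hTp : Tl G m x K (x p))
    (hGQ : ∀ q ∈ Q, ∀ q' ∈ Q, q ≠ q' → Gp G m x K (x q) (x q'))
    (hGp : ∀ q ∈ Q, Gp G m x K (x q) (x p))
    (R : Finset ℕ) (hRm : ∀ r ∈ R, r + 1 < m) (hRl : ∀ r ∈ R, ¬ G.Adj (x (m - 1)) (x r))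
    (hRT : ∀ r ∈ R, Tl G m x K (x r))
    (hRG : ∀ r ∈ R, ∀ q ∈ Q, q ≠ r → Gp G m x K (x q) (x r))
    (hd0 : k ≤ G.degree (x 0)) (hdl : k ≤ G.degree (x (m - 1)))
    (hdq : ∀ q ∈ Q, k ≤ G.degree (x (q + 1)))
    (hoff : ∀ q ∈ Q, ∀ z, Off m x z → G.Adj (x (q + 1)) z → z ∉ H)
    (hcom : ∀ q ∈ Q, ∀ q' ∈ Q, q < q' → ∀ z, Off m x z → G.Adj (x (q + 1)) z →
      G.Adj (x (q' + 1)) z → False) :
    (X + 1) * k + R.card + 1 + X ≤ (univ \ H).card + X * X := by
  have hm := C.pos
  have key := C.count_full hX hXK Q hQ hQm p hp hQp (fun q hq => (hGp q hq).tl) hTp hGQ hGp R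
    hRm hRl hRT hRG
  have e0 : (W G m x (x 0)).card = G.degree (x 0) := card_W C _ (fun v a => C.first_on a)
  have e1 : (W G m x (x (m - 1))).card = G.degree (x (m - 1)) :=
    card_W C _ (fun v a => C.last_on a)
  set F : V → Finset V := fun u => (G.neighborFinset u).filter (fun v => ¬ ∃ i < m, x i = v)
    with hF
  have h1 : ∑ q ∈ Q, k ≤ ∑ q ∈ Q, ((W G m x (x (q + 1))).card + (F (x (q + 1))).card) :=
    sum_le_sum (fun q hq => (hdq q hq).trans (C.deg_split _))
  rw [sum_const, smul_eq_mul, sum_add_distrib] at h1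
  have h2 : ∑ q ∈ Q, (F (x (q + 1))).card = (Q.biUnion (fun q => F (x (q + 1)))).card := by
    rw [card_biUnion]
    intro q hq q' hq' hne
    change Disjoint (F (x (q + 1))) (F (x (q' + 1)))
    rw [disjoint_left]
    intro z hz hz'
    rw [hF, mem_filter, SimpleGraph.mem_neighborFinset] at hz hz'
    have hoz : Off m x z := fun i hi he => hz.2 ⟨i, hi, he⟩
    rcases Nat.lt_or_gt_of_ne hne with h | h
    · exact hcom q hq q' hq' h z hoz hz.1 hz'.1
    · exact hcom q' hq' q hq h z hoz hz'.1 hz.1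
  have h3 : (Q.biUnion (fun q => F (x (q + 1)))).card ≤
      ((univ \ H).filter (fun v => ¬ ∃ i < m, x i = v)).card := by
    refine card_le_card ?_
    intro z hz
    rw [mem_biUnion] at hz
    obtain ⟨q, hq, hz⟩ := hz
    rw [hF, mem_filter, SimpleGraph.mem_neighborFinset] at hz
    rw [mem_filter, mem_sdiff]
    exact ⟨⟨mem_univ _, hoff q hq z (fun i hi he => hz.2 ⟨i, hi, he⟩) hz.1⟩, hz.2⟩
  have h4 := C.card_out H hH
  have h5 : (X + 1) * k = Q.card * k + 2 * k := by rw [← hQ]; ring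
  omega

end Pool.Agent.MP5ce328
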