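import Pool.Agent.Lib.MP_5ce328_co.Second
import Pool.Agent.Lib.MP_5ce328_co.Full.FinalA
import Pool.Agent.Lib.MP_5ce328_co.Full.FinalB

namespace Pool.Agent.MP5ce328

open Finset

variable {V : Type*} {G : SimpleGraph V}

/-- the case `deg w0 ≤ 2` -/
theorem small_w0 [Fintype V] [DecidableRel G.Adj] {m k : ℕ} {x : ℕ → V} (C : LP G m x)
    (hG : G.Connected) (hk : 1 ≤ k) (w0 : V) (hd : ∀ v, v ≠ w0 → k ≤ G.degree v)
    (hE : ∀ v, (EV G v).card ≤ k) (h2 : G.degree w0 ≤ 2) (hmn : m < Fintype.card V) : False := by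
  classical
  have h1 := three_mul C hG w0 hd hE hmn
  obtain ⟨t, c, ht, htc, hup⟩ := upper hG hE {w0} (mem_singleton_self w0) (G.neighborFinset w0)
    (by
      intro q hq
      rw [mem_singleton] at hq
      obtain ⟨z, hz, hz'⟩ := br_next hG (Ne.symm hq)
      refine ⟨z, (SimpleGraph.mem_neighborFinset _ _ _).2 hz, hz.ne', ?_⟩
      have : G.dist w0 z = 1 := SimpleGraph.dist_eq_one_iff_adj.2 hz
      omega)
  rw [SimpleGraph.card_neighborFinset_eq_degree] at ht
  have h3 : (G.neighborFinset w0 \ {w0}).card ≤ G.degree w0 := by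
    rw [← SimpleGraph.card_neighborFinset_eq_degree]
    exact card_le_card sdiff_subset
  have h4 : (univ \ {w0} : Finset V).card + 1 = Fintype.card V := by
    rw [card_sdiff_of_subset (subset_univ _), card_univ, card_singleton]
    omega
  have h5 : t ≤ 2 := ht.trans h2
  interval_cases t <;> omega

/-- **the main theorem**, for a longest path -/
theorem LP.full [Fintype V] [DecidableRel G.Adj] {m k : ℕ} {x : ℕ → V} (C : LP G m x)
    (hG : G.Connected) (hk : 1 ≤ k) (w0 : V) (hd : ∀ v, v ≠ w0 → k ≤ G.degree v)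
    (hE : ∀ v, (EV G v).card ≤ k) (hmn : m < Fintype.card V) : False := by
  classical
  by_cases h2 : G.degree w0 ≤ 2
  · exact small_w0 C hG hk w0 hd hE h2 hmn
  by_cases h : ∃ y : ℕ → V, LP G m y ∧ ∃ v, Off m y v ∧ v ≠ w0
  · obtain ⟨y, Y, hy⟩ := h
    exact Y.caseA_full hG hk w0 hd hE (by omega) hy
  · push Not at h
    obtain ⟨w, hw⟩ : ∃ w, Off m x w := by
      by_contra hc
      push Not at hc
      have h1 : (univ : Finset V) ⊆ (range m).image x := by
        intro v _
        have := hc v
        unfold Off at this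
        push Not at this
        obtain ⟨i, hi, rfl⟩ := this
        exact mem_image_of_mem _ (mem_range.2 hi)
      have h2 := card_le_card h1
      have h3 := card_image_le (s := range m) (f := x)
      rw [card_univ] at h2
      rw [card_range] at h3
      omega
    have hww := h x C w hw
    subst hww
    exact C.caseB_full hG w hd hE hw h hk

end Pool.Agent.MP5ce328
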