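import Pool.Agent.Lib.MP_5ce328_co.Full.Comp
import Pool.Agent.Lib.MP_5ce328_co.Full.Det
import Pool.Agent.Lib.MP_5ce328_co.Full.EP
import Pool.Agent.Lib.MP_5ce328_co.Full.Exits
import Pool.Agent.Lib.MP_5ce328_co.Full.Koe
import Pool.Agent.Lib.MP_5ce328_co.Full.LDens
import Pool.Agent.Lib.MP_5ce328_co.Full.LongF
import Pool.Agent.Lib.MP_5ce328_co.Full.Upper

namespace Pool.Agent.MP5ce328

open Finset

variable {V : Type*} {G : SimpleGraph V}

/-- every off vertex other than `w0` has an off neighbour other than `w0` -/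
theorem LP.off_nb [Fintype V] [DecidableEq V] [DecidableRel G.Adj] {m k : ℕ} {x : ℕ → V}
    (C : LP G m x) (hk : 1 ≤ k) {w0 : V} (hd : ∀ v, v ≠ w0 → k ≤ G.degree v)
    (hN : ∀ v, (N2 G v).card ≤ k) (h3 : 3 ≤ G.degree w0) {h : V} (hh : Off m x h)
    (hw : h ≠ w0) : ∃ h', Off m x h' ∧ G.Adj h h' ∧ h' ≠ w0 := by
  by_contra hc
  push Not at hc
  by_cases hex : ∃ h', Off m x h' ∧ G.Adj h h'
  · obtain ⟨h', h1, h2⟩ := hex
    have h4 := hc h' h1 h2
    subst h4
    have := C.off_small hh h1 h2 (hN h) (hd h hw) (fun v a b => hc v a b)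
    omega
  · push Not at hex
    have hW : (W G m x h).card = G.degree h := card_W C h (fun v a => by
      by_contra hcc
      push Not at hcc
      exact hex v hcc a)
    have h1 := hd h hw
    have h2 := C.lemma1 hh (card_pos.1 (by omega))
    have h4 := hN h
    omega

/-- the structure off the path -/
theorem LP.struct [Fintype V] [DecidableEq V] [DecidableRel G.Adj] {m k : ℕ} {x : ℕ → V}
    (C : LP G m x) (hG : G.Connected) (hk : 1 ≤ k) (w0 : V)
    (hd : ∀ v, v ≠ w0 → k ≤ G.degree v) (hE : ∀ v, (EV G v).card ≤ k) (h3 : 3 ≤ G.degree w0)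
    (ho : ∃ h, Off m x h ∧ h ≠ w0) :
    ∃ (H : Finset V) (h h' : V) (X : ℕ) (T : Finset V),
      (∀ v ∈ H, Off m x v) ∧ (∀ a ∈ H, ∀ v, Off m x v → G.Adj a v → v ∈ H) ∧ Cn G H ∧
      h ∈ H ∧ h' ∈ H ∧ G.Adj h' h ∧ 1 ≤ X ∧ 2 * X ≤ k + 1 ∧ T.card = X ∧
      (∀ t ∈ T, ¬ Off m x t) ∧
      (∀ t ∈ T, ∀ t' ∈ T, t ≠ t' →
        ∃ e g g', PathIn G H g g' e ∧ X ≤ e.length ∧ G.Adj g t ∧ G.Adj g' t') ∧
      (∀ t ∈ T, ∃ e g g', PathIn G H g g' e ∧ X ≤ e.length ∧ G.Adj g t) ∧
      (∀ v, ¬ Off m x v → G.Adj h v →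
        ∃ e g g', PathIn G H g g' e ∧ X ≤ e.length ∧ G.Adj g v) ∧
      (∀ v, ¬ Off m x v → G.Adj h v → ∀ t ∈ T, t ≠ v →
        ∃ e g g', PathIn G H g g' e ∧ X ≤ e.length ∧ G.Adj g t ∧ G.Adj g' v) ∧
      (∃ t c, t + c = k + 1 ∧ (t ≤ X ∨ k ≤ 2 * X) ∧
        (univ \ H).card ≤ ((G.neighborFinset h) \ H).card + k + t * c) := by
  classical
  have hN : ∀ v, (N2 G v).card ≤ k := fun v => (card_le_card (N2_sub_EV hG v)).trans (hE v)
  obtain ⟨h0, hh0, hh0w⟩ := ho
  set O : Finset V := univ.filter (fun v => Off m x v) with hO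
  have memO : ∀ v, v ∈ O ↔ Off m x v := by intro v; simp [hO]
  have hdens : ∀ h, Off m x h → h ≠ w0 → k + 2 ≤ 2 * (NO G m x h).card := by
    intro h hh hw
    obtain ⟨h', h1, h2, h4⟩ := C.off_nb hk hd hN h3 hh hw
    exact C.off_degree hh h1 h2 (hN h) (hd h hw) (hd h' h4)
  obtain ⟨H, hHO, hh0H, hHc, hHcl⟩ := off_component (G := G) O ((memO h0).2 hh0)
  have hHoff : ∀ v ∈ H, Off m x v := fun v hv => (memO v).1 (hHO hv)
  have hHcl' : ∀ a ∈ H, ∀ v, Off m x v → G.Adj a v → v ∈ H := fun a ha v hv hav =>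
    hHcl a ha v ((memO v).2 hv) hav
  have hNOsub : ∀ a ∈ H, NO G m x a ⊆ H := by
    intro a ha v hv
    rw [mem_NO] at hv
    rcases hv.1 with h1 | h1
    · rw [h1]; exact ha
    · exact hHcl' a ha v hv.2 h1
  have hH2 : 2 ≤ H.card := by
    have h1 := hdens h0 hh0 hh0w
    have h2 := card_le_card (hNOsub h0 hh0H)
    omega
  -- the vertex to be avoided
  obtain ⟨v0, hv0, hv0w⟩ : ∃ v0 ∈ H, ∀ a ∈ H.erase v0, a ≠ w0 := by
    by_cases hw : w0 ∈ H
    · exact ⟨w0, hw, fun a ha => (mem_erase.1 ha).1⟩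
    · exact ⟨h0, hh0H, fun a ha he => hw (he ▸ (mem_erase.1 ha).2)⟩
  obtain ⟨A, b, hA1, hA2, hbH, hbA, hAcl, hBc, hBi, hHA⟩ := end_part (G := G) H hHc hv0 hH2
  have hAH : A ⊆ H := hA1.trans (erase_subset _ _)
  have hAw : ∀ a ∈ A, a ≠ w0 := fun a ha => hv0w a (hA1 ha)
  have hBH : insert b A ⊆ H := insert_subset hbH hAH
  set d := (k + 1) / 2 with hdd
  have hdeg : ∀ w ∈ A, d ≤ ((insert b A).filter (fun z => G.Adj w z)).card := by
    intro w hw
    have h1 := hdens w (hHoff w (hAH hw)) (hAw w hw)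
    have h2 : NO G m x w ⊆ insert w ((insert b A).filter (fun z => G.Adj w z)) := by
      intro v hv
      rw [mem_NO] at hv
      rw [mem_insert, mem_filter]
      rcases hv.1 with h4 | h4
      · exact Or.inl h4
      · right
        refine ⟨?_, h4⟩
        rw [mem_insert]
        rcases hAcl w hw v (hHcl' w (hAH hw) v hv.2 h4) h4 with h5 | h5
        · exact Or.inr h5
        · exact Or.inl h5
    have h4 := (card_le_card h2).trans (card_insert_le _ _)
    omega
  have hBcard : d + 1 ≤ (insert b A).card := by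
    obtain ⟨a0, ha0⟩ := hA2
    have h1 := hdeg a0 ha0
    have h2 : insert a0 ((insert b A).filter (fun z => G.Adj a0 z)) ⊆ insert b A :=
      insert_subset (mem_insert_of_mem ha0) (filter_subset _ _)
    have h4 := card_le_card h2
    rw [card_insert_of_notMem (by
      rw [mem_filter]; exact fun hc => G.irrefl hc.2)] at h4
    omega
  have hAcard : d ≤ A.card := by
    rw [card_insert_of_notMem hbA] at hBcard
    omega
  have hF : ∀ u ∈ insert b A, ∀ v ∈ insert b A, u ≠ v →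
      ∃ l, PathIn G (insert b A) u v l ∧ d ≤ l.length := by
    intro u hu v hv huv
    refine long_F d (insert b A) b u v hu hv huv hBc hBi ?_ hBcard
    intro w hw hwb _ _
    exact hdeg w ((mem_insert.1 hw).resolve_left hwb)
  -- the ports
  set T0 : Finset V := univ.filter (fun v => ¬ Off m x v) with hT0
  have memT0 : ∀ v, v ∈ T0 ↔ ¬ Off m x v := by intro v; simp [hT0]
  obtain ⟨CA, CB, M, hCA, hCB, hcov, hMc, hM, hM1, hM2, hCAM⟩ :=
    koenig (insert b A) T0 (Pt G H A b)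
  have hMpos : 1 ≤ M.card := by
    obtain ⟨a, t, ha, ht, hat⟩ := cross hG (fun v => v ∈ H) (u := h0) (z := x 0) hh0H
      (fun hc => hHoff _ hc 0 C.pos rfl)
    have ht' : ¬ Off m x t := fun hc => ht (hHcl' a ha t hc hat)
    have hex : ∃ a' ∈ insert b A, Pt G H A b a' t := by
      by_cases haA : a ∈ A
      · exact ⟨a, mem_insert_of_mem haA, Or.inl ⟨haA, hat⟩⟩
      · exact ⟨b, mem_insert_self _ _, Or.inr ⟨rfl, a, ha, haA, hat⟩⟩
    obtain ⟨a', ha', hp⟩ := hex
    rcases hcov a' ha' t ((memT0 t).2 ht') hp with h1 | h1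
    · have := card_pos.2 ⟨a', h1⟩
      omega
    · have := card_pos.2 ⟨t, h1⟩
      omega
  set X := min M.card d with hX
  have hd1 : 1 ≤ d := by omega
  have hX1 : 1 ≤ X := by rw [hX, le_min_iff]; exact ⟨hMpos, hd1⟩
  have hXM : X ≤ M.card := min_le_left _ _
  have hXd : X ≤ d := min_le_right _ _
  obtain ⟨M', hM'M, hM'c⟩ := exists_subset_card_eq hXM
  -- the vertex h
  have hup : ∃ h ∈ insert b A, (∀ p ∈ M', p.1 ≠ h) ∧ ∃ t c, t + c = k + 1 ∧
      (t ≤ X ∨ k ≤ 2 * X) ∧
      (univ \ H).card ≤ ((G.neighborFinset h) \ H).card + k + t * c := by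
    rcases Nat.lt_or_ge M.card d with hlt | hge
    · have h1 : (M.image Prod.fst).card < A.card :=
        lt_of_le_of_lt card_image_le (lt_of_lt_of_le hlt hAcard)
      obtain ⟨h, hhA, hhM⟩ := exists_mem_notMem_of_card_lt_card h1
      have hhM' : ∀ p ∈ M, p.1 ≠ h := fun p hp he => hhM (by
        rw [mem_image]; exact ⟨p, hp, he⟩)
      have hhCA : h ∉ CA := by
        intro hc
        obtain ⟨p, hp, he⟩ := hCAM h hc
        exact hhM' p hp he
      have hhCB : h ∉ CB := by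
        intro hc
        exact (memT0 h).1 (hCB hc) (hHoff h (hAH hhA))
      have hT0H : ∀ t, t ∉ H → ∀ g ∈ H, G.Adj g t → t ∈ T0 := by
        intro t ht g hg hgt
        rw [memT0]
        exact fun hc => ht (hHcl' g hg t hc hgt)
      obtain ⟨t, c, ht, htc, hu⟩ := upper hG hE H (hAH hhA) (CA ∪ CB)
        (exits hG H A b hAH hbH hbA hAcl (CA ∪ CB) hhA
          (by rw [mem_union]; push Not; exact ⟨hhCA, hhCB⟩)
          (by
            intro a ha t ht hat
            rw [mem_union, mem_union]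
            rcases hcov a (mem_insert_of_mem ha) t (hT0H t ht a (hAH ha) hat)
              (Or.inl ⟨ha, hat⟩) with h4 | h4
            · exact Or.inl (Or.inl h4)
            · exact Or.inr (Or.inr h4))
          (by
            intro g hg hgA t ht hgt
            rw [mem_union, mem_union]
            rcases hcov b (mem_insert_self _ _) t (hT0H t ht g hg hgt)
              (Or.inr ⟨rfl, g, hg, hgA, hgt⟩) with h4 | h4
            · exact Or.inl (Or.inl h4)
            · exact Or.inr (Or.inr h4)))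
      refine ⟨h, mem_insert_of_mem hhA, fun p hp => hhM' p (hM'M hp), t, c, htc, Or.inl ?_, hu⟩
      have h2 := card_union_le CA CB
      have h4 : X = M.card := by rw [hX]; exact min_eq_left hlt.le
      omega
    · have hXd' : X = d := by rw [hX]; exact min_eq_right hge
      have h1 : (M'.image Prod.fst).card < (insert b A).card := by
        refine lt_of_le_of_lt card_image_le ?_
        omega
      obtain ⟨h, hhB, hhM⟩ := exists_mem_notMem_of_card_lt_card h1
      obtain ⟨t, c, ht, htc, hu⟩ := upper hG hE H (hBH hhB) univ (by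
        intro q hq
        refine ⟨q, mem_univ _, ?_, by rw [SimpleGraph.dist_self, add_zero]⟩
        rintro rfl
        exact hq (hBH hhB))
      refine ⟨h, hhB, fun p hp he => hhM (by rw [mem_image]; exact ⟨p, hp, he⟩), t, c, htc,
        Or.inr ?_, hu⟩
      omega
  obtain ⟨h, hhB, hhM, hupper⟩ := hup
  have hhH : h ∈ H := hBH hhB
  -- a neighbour of h
  obtain ⟨h', hh'H, hh'⟩ : ∃ h' ∈ H, G.Adj h' h := by
    obtain ⟨a, ha, v, hv, hva, hav⟩ := hHc {h} (singleton_subset_iff.2 hhH)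
      (singleton_nonempty h) (by
        by_contra hc
        push Not at hc
        have : H ⊆ {h} := fun v hv => hc v hv
        have := card_le_card this
        rw [card_singleton] at this
        omega)
    rw [mem_singleton] at ha
    subst ha
    exact ⟨v, hv, hav.symm⟩
  have hPth : ∀ v, G.Adj h v → Pt G H A b h v := by
    intro v hv
    rcases mem_insert.1 hhB with h1 | h1
    · right
      exact ⟨h1, h, hhH, by rw [h1]; exact hbA, hv⟩
    · left; exact ⟨h1, hv⟩
  have hother : ∀ a ∈ insert b A, ∃ a' ∈ insert b A, a ≠ a' := by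
    intro a ha
    by_contra hc
    push Not at hc
    have : insert b A ⊆ {a} := fun v hv => mem_singleton.2 (hc v hv).symm
    have := card_le_card this
    rw [card_singleton] at this
    omega
  refine ⟨H, h, h', X, M'.image Prod.snd, hHoff, hHcl', hHc, hhH, hh'H, hh', hX1, by omega,
    ?_, ?_, ?_, ?_, ?_, ?_, hupper⟩
  · rw [card_image_of_injOn, hM'c]
    intro p hp q hq he
    exact hM2 p (hM'M hp) q (hM'M hq) he
  · intro t ht
    rw [mem_image] at ht
    obtain ⟨p, hp, rfl⟩ := ht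
    exact (memT0 _).1 (hM p (hM'M hp)).2.1
  · intro t ht t' ht' hne
    rw [mem_image] at ht ht'
    obtain ⟨p, hp, rfl⟩ := ht
    obtain ⟨q, hq, rfl⟩ := ht'
    have h1 := hM p (hM'M hp)
    have h2 := hM q (hM'M hq)
    obtain ⟨e, g, g', e1, e2, e3, e4⟩ := detour H A b hAH hbH hbA hHA hF h1.1 h2.1
      (fun he => hne (by rw [hM1 p (hM'M hp) q (hM'M hq) he])) h1.2.2 h2.2.2
    exact ⟨e, g, g', e1, hXd.trans e2, e3, e4⟩
  · intro t ht
    rw [mem_image] at ht
    obtain ⟨p, hp, rfl⟩ := ht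
    have h1 := hM p (hM'M hp)
    obtain ⟨a', ha', hne⟩ := hother p.1 h1.1
    obtain ⟨e, g, e1, e2, e3⟩ := det_tail H A b hAH hbH hbA hHA hF h1.1 ha' hne h1.2.2
    exact ⟨e, g, a', e1, hXd.trans e2, e3⟩
  · intro v _ hv
    obtain ⟨a', ha', hne⟩ := hother h hhB
    obtain ⟨e, g, e1, e2, e3⟩ := det_tail H A b hAH hbH hbA hHA hF hhB ha' hne (hPth v hv)
    exact ⟨e, g, a', e1, hXd.trans e2, e3⟩
  · intro v _ hv t ht _
    rw [mem_image] at ht
    obtain ⟨p, hp, rfl⟩ := ht
    have h1 := hM p (hM'M hp)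
    obtain ⟨e, g, g', e1, e2, e3, e4⟩ := detour H A b hAH hbH hbA hHA hF h1.1 hhB
      (hhM p hp) h1.2.2 (hPth v hv)
    exact ⟨e, g, g', e1, hXd.trans e2, e3, e4⟩

end Pool.Agent.MP5ce328
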